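import Pool.Agent.Helper548.KnotA.A5
import Pool.Agent.Helper548.KnotA.BigSimplex

namespace KnotA

theorem cnt_filter_le (X : Finset R3) (S T : Set R3) [DecidablePred fun x : R3 => x ∈ S] :
    cnt (X.filter (fun x => x ∈ S)) T ≤ cnt X T := by
  classical
  unfold cnt
  exact Finset.card_le_card (Finset.filter_subset_filter _ (Finset.filter_subset _ _))

theorem A6 (t : ℕ) : ∃ C : ℕ, 1 ≤ C ∧ ∀ (D : ℕ) (X : Finset R3), PlaneFour X → C ^ (D + 1) ≤ X.card →
    ∃ (Δ : List (Fin (4 ^ t)) → (Fin 4 → R3)) (rep : List (Fin (4 ^ t)) → R3),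
      (∀ u, u.length < D → IsFam (3 ^ t) (Δ u) (fun i => Δ (u ++ [i]))) ∧
      (∀ u, u.length ≤ D → rep u ∈ X ∧ rep u ∈ hull (Δ u)) := by
  classical
  obtain ⟨c, n0, hc0, hc1, hn0, hA⟩ := A5
  have hq0 : 0 < c ^ t := pow_pos hc0 t
  have hq1 : c ^ t ≤ 1 := pow_le_one₀ hc0.le hc1
  have hn0' : (1 : ℝ) ≤ n0 := by exact_mod_cast hn0
  obtain ⟨C, hC⟩ := exists_nat_ge ((n0 : ℝ) / c ^ t)
  refine ⟨C + 1, by omega, fun D X hX hcard => ?_⟩
  obtain ⟨v0, hv0⟩ := bigSimplex X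
  have key : ∀ v : Fin 4 → R3, ∃ F : Fin (4 ^ t) → (Fin 4 → R3),
      (n0 : ℝ) ≤ c ^ t * cnt X (hull v) → IsFam (3 ^ t) v F ∧
        ∀ j, c ^ t * cnt X (hull v) ≤ (cnt X (hull (F j)) : ℝ) := by
    intro v
    by_cases h : (n0 : ℝ) ≤ c ^ t * cnt X (hull v)
    · have hcc : (X.filter (fun x => x ∈ hull v)).card = cnt X (hull v) := rfl
      obtain ⟨F, hF1, hF2⟩ := hA t v (X.filter (fun x => x ∈ hull v))
        (fun x hx => (Finset.mem_filter.1 hx).2)
        (fun g e hg => (cnt_filter_le X (hull v) _).trans (hX g e hg))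
        (by rw [hcc]; exact h)
      refine ⟨F, fun _ => ⟨hF1, fun j => ?_⟩⟩
      have h1 := hF2 j
      rw [hcc] at h1
      refine h1.trans ?_
      exact_mod_cast cnt_filter_le X (hull v) _
    · exact ⟨fun _ => v, fun h' => absurd h' h⟩
  choose F hF using key
  let Δ : List (Fin (4 ^ t)) → (Fin 4 → R3) := fun u => u.foldl (fun v i => F v i) v0
  have hΔ0 : Δ [] = v0 := rfl
  have hΔ : ∀ u i, Δ (u ++ [i]) = F (Δ u) i := by
    intro u i
    simp only [Δ, List.foldl_append, List.foldl_cons, List.foldl_nil]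
  have hbig : (n0 : ℝ) ≤ (c ^ t) ^ D * X.card := by
    have h1 : (n0 : ℝ) ≤ c ^ t * ((C : ℝ) + 1) := by
      have h2 : (n0 : ℝ) = c ^ t * ((n0 : ℝ) / c ^ t) := by field_simp
      rw [h2]
      exact mul_le_mul_of_nonneg_left (by linarith) hq0.le
    have h3 : ((C : ℝ) + 1) ^ (D + 1) ≤ X.card := by exact_mod_cast hcard
    have h4 : (1 : ℝ) ≤ (c ^ t * ((C : ℝ) + 1)) ^ D := one_le_pow₀ (hn0'.trans h1)
    have h5 : c ^ t * ((C : ℝ) + 1) ≤ (C : ℝ) + 1 := by
      have : (0 : ℝ) ≤ (C : ℝ) + 1 := by positivity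
      nlinarith
    calc (n0 : ℝ) ≤ (C : ℝ) + 1 := h1.trans h5
      _ = 1 * ((C : ℝ) + 1) := (one_mul _).symm
      _ ≤ (c ^ t * ((C : ℝ) + 1)) ^ D * ((C : ℝ) + 1) :=
          mul_le_mul_of_nonneg_right h4 (by positivity)
      _ = (c ^ t) ^ D * ((C : ℝ) + 1) ^ (D + 1) := by
          rw [mul_pow, pow_succ ((C : ℝ) + 1) D, mul_assoc]
      _ ≤ (c ^ t) ^ D * X.card := mul_le_mul_of_nonneg_left h3 (by positivity)
  have hmono : ∀ l, l ≤ D → (n0 : ℝ) ≤ (c ^ t) ^ l * X.card := by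
    intro l hl
    refine hbig.trans (mul_le_mul_of_nonneg_right ?_ (by positivity))
    exact pow_le_pow_of_le_one hq0.le hq1 hl
  have hinv : ∀ u : List (Fin (4 ^ t)), u.length ≤ D →
      (c ^ t) ^ u.length * X.card ≤ (cnt X (hull (Δ u)) : ℝ) := by
    intro u
    induction u using List.reverseRecOn with
    | nil =>
      intro _
      rw [hΔ0]
      have : cnt X (hull v0) = X.card := by
        unfold cnt
        rw [Finset.filter_true_of_mem hv0]
      rw [this]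
      simp
    | append_singleton u i ih =>
      intro hl
      rw [List.length_append, List.length_singleton] at hl ⊢
      have ih' := ih (by omega)
      have h1 : (n0 : ℝ) ≤ c ^ t * cnt X (hull (Δ u)) := by
        refine (hmono _ hl).trans ?_
        calc (c ^ t) ^ (u.length + 1) * X.card = c ^ t * ((c ^ t) ^ u.length * X.card) := by ring
          _ ≤ _ := mul_le_mul_of_nonneg_left ih' hq0.le
      rw [hΔ]
      refine le_trans ?_ ((hF (Δ u) h1).2 i)
      calc (c ^ t) ^ (u.length + 1) * X.card = c ^ t * ((c ^ t) ^ u.length * X.card) := by ring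
        _ ≤ _ := mul_le_mul_of_nonneg_left ih' hq0.le
  have hrep : ∀ u : List (Fin (4 ^ t)), ∃ x : R3, u.length ≤ D → x ∈ X ∧ x ∈ hull (Δ u) := by
    intro u
    by_cases hu : u.length ≤ D
    · have h1 := hinv u hu
      have h2 := hmono _ hu
      have h3 : (0 : ℝ) < (cnt X (hull (Δ u)) : ℝ) := by linarith
      have h4 : 0 < cnt X (hull (Δ u)) := by exact_mod_cast h3
      unfold cnt at h4
      obtain ⟨x, hx⟩ := Finset.card_pos.1 h4
      exact ⟨x, fun _ => ⟨(Finset.mem_filter.1 hx).1, (Finset.mem_filter.1 hx).2⟩⟩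
    · exact ⟨0, fun h => absurd h hu⟩
  choose rep hrep using hrep
  refine ⟨Δ, rep, fun u hu => ?_, hrep⟩
  have h1 : (n0 : ℝ) ≤ c ^ t * cnt X (hull (Δ u)) := by
    refine (hmono (u.length + 1) hu).trans ?_
    calc (c ^ t) ^ (u.length + 1) * X.card = c ^ t * ((c ^ t) ^ u.length * X.card) := by ring
      _ ≤ _ := mul_le_mul_of_nonneg_left (hinv u hu.le) hq0.le
  have h2 := (hF (Δ u) h1).1
  have h3 : (fun i => Δ (u ++ [i])) = F (Δ u) := funext fun i => hΔ u i
  rw [h3]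
  exact h2

end KnotA
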