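import Pool.Agent.Helper548.KnotA.Defs

namespace KnotA

theorem L3_sign {K B : ℕ} {v : Fin 4 → R3} {D : Fin K → Fin 4 → R3} (hD : IsFam B v D)
    (φ : R3 → ℝ) (hφ : IsAff φ) (hne : ∃ x, φ x ≠ 0) :
    {j : Fin K | ¬ ((∀ x ∈ hull (D j), 0 < φ x) ∨ (∀ x ∈ hull (D j), φ x < 0))}.ncard ≤ B := by
  obtain ⟨g, c, hg⟩ := hφ
  by_cases h0 : g = 0
  · obtain ⟨x₀, hx₀⟩ := hne
    have hc : ∀ x, φ x = c := by
      intro x
      rw [hg, h0]; simp
    rw [hc] at hx₀
    have : {j : Fin K | ¬ ((∀ x ∈ hull (D j), 0 < φ x) ∨ (∀ x ∈ hull (D j), φ x < 0))} = ∅ := by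
      rw [Set.eq_empty_iff_forall_notMem]
      intro j hj
      apply hj
      rcases lt_or_gt_of_ne hx₀ with h | h
      · right
        intro x _
        rw [hc]; exact h
      · left
        intro x _
        rw [hc]; exact h
    rw [this, Set.ncard_empty]
    exact Nat.zero_le _
  · have h3 := hD.sign g (-c) h0
    have : {j : Fin K | ¬ ((∀ x ∈ hull (D j), 0 < φ x) ∨ (∀ x ∈ hull (D j), φ x < 0))} =
        {j : Fin K | ¬ StrictSign g (-c) (hull (D j))} := by
      ext j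
      simp only [Set.mem_ofPred_eq, StrictSign]
      have e1 : (∀ x ∈ hull (D j), 0 < φ x) ↔ (∀ x ∈ hull (D j), -c < g x) := by
        refine forall₂_congr fun x _ => ?_
        rw [hg]; constructor <;> intro h <;> linarith
      have e2 : (∀ x ∈ hull (D j), φ x < 0) ↔ (∀ x ∈ hull (D j), g x < -c) := by
        refine forall₂_congr fun x _ => ?_
        rw [hg]; constructor <;> intro h <;> linarith
      rw [e1, e2]
    rw [this]
    exact h3

theorem L3_count {K B : ℕ} (P : Fin K → Fin K → Prop) (h : ∀ j, {i | P i j}.ncard ≤ B) :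
    {q : Fin K × Fin K | P q.1 q.2}.ncard ≤ B * K := by
  classical
  have e1 : {q : Fin K × Fin K | P q.1 q.2}.ncard = ∑ q : Fin K × Fin K, if P q.1 q.2 then 1 else 0 := by
    rw [Set.ncard_eq_toFinset_card', Finset.card_eq_sum_ones, ← Finset.sum_filter]
    congr 1
    ext q
    simp
  have e2 : ∀ j, {i | P i j}.ncard = ∑ i : Fin K, if P i j then 1 else 0 := by
    intro j
    rw [Set.ncard_eq_toFinset_card', Finset.card_eq_sum_ones, ← Finset.sum_filter]
    congr 1
    ext q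
    simp
  rw [e1, Fintype.sum_prod_type_right]
  calc ∑ y : Fin K, ∑ x : Fin K, (if P x y then 1 else 0) = ∑ y : Fin K, {i | P i y}.ncard := by
        refine Finset.sum_congr rfl fun y _ => (e2 y).symm
    _ ≤ ∑ y : Fin K, B := Finset.sum_le_sum fun y _ => h y
    _ = B * K := by simp [mul_comm]

theorem L3_count' {K B : ℕ} (P : Fin K → Fin K → Prop) (h : ∀ i, {j | P i j}.ncard ≤ B) :
    {q : Fin K × Fin K | P q.1 q.2}.ncard ≤ B * K := by
  classical
  have e1 : {q : Fin K × Fin K | P q.1 q.2}.ncard = ∑ q : Fin K × Fin K, if P q.1 q.2 then 1 else 0 := by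
    rw [Set.ncard_eq_toFinset_card', Finset.card_eq_sum_ones, ← Finset.sum_filter]
    congr 1
    ext q
    simp
  have e2 : ∀ i, {j | P i j}.ncard = ∑ j : Fin K, if P i j then 1 else 0 := by
    intro j
    rw [Set.ncard_eq_toFinset_card', Finset.card_eq_sum_ones, ← Finset.sum_filter]
    congr 1
    ext q
    simp
  rw [e1, Fintype.sum_prod_type]
  calc ∑ x : Fin K, ∑ y : Fin K, (if P x y then 1 else 0) = ∑ x : Fin K, {j | P x j}.ncard := by
        refine Finset.sum_congr rfl fun y _ => (e2 y).symm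
    _ ≤ ∑ y : Fin K, B := Finset.sum_le_sum fun y _ => h y
    _ = B * K := by simp [mul_comm]

theorem L3_mem {K : ℕ} (D : Fin K → Fin 4 → R3) (j : Fin K) (a : Fin 4) : D j a ∈ hull (D j) :=
  subset_convexHull ℝ _ ⟨a, rfl⟩

theorem L3_pos (φ : R3 → ℝ) (hφ : IsAff φ) (w : Fin 4 → R3) (h : ∀ a, 0 < φ (w a)) :
    ∀ x ∈ hull w, 0 < φ x := by
  obtain ⟨g, c, hg⟩ := hφ
  have h1 : hull w ⊆ {x | -c < g x} := by
    apply convexHull_min
    · rintro _ ⟨a, rfl⟩
      have := h a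
      rw [hg] at this
      change -c < g (w a)
      linarith
    · exact convex_halfSpace_gt g.isLinear (-c)
  intro x hx
  have h2 : -c < g x := h1 hx
  rw [hg]; linarith

theorem L3_neg (φ : R3 → ℝ) (hφ : IsAff φ) (w : Fin 4 → R3) (h : ∀ a, φ (w a) < 0) :
    ∀ x ∈ hull w, φ x < 0 := by
  obtain ⟨g, c, hg⟩ := hφ
  have h1 : hull w ⊆ {x | g x < -c} := by
    apply convexHull_min
    · rintro _ ⟨a, rfl⟩
      have := h a
      rw [hg] at this
      change g (w a) < -c
      linarith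
    · exact convex_halfSpace_lt g.isLinear (-c)
  intro x hx
  have h2 : g x < -c := h1 hx
  rw [hg]; linarith

theorem L3 {K B : ℕ} {v : Fin 4 → R3} {D : Fin K → Fin 4 → R3} (hD : IsFam B v D)
    (f : R3 → R3 → ℝ) (h1 : ∀ y, IsAff (fun x => f x y)) (h2 : ∀ x, IsAff (fun y => f x y))
    (hne : ∃ x y, f x y ≠ 0) :
    {q : Fin K × Fin K | ¬ ((∀ x ∈ hull (D q.1), ∀ y ∈ hull (D q.2), 0 < f x y) ∨
      (∀ x ∈ hull (D q.1), ∀ y ∈ hull (D q.2), f x y < 0))}.ncard ≤ 7 * B * K := by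
  obtain ⟨x₀, y₀, h0⟩ := hne
  -- the auxiliary sets
  let P1 : Fin K → Fin K → Prop := fun i j => ∃ a, ∀ x, f x (D j a) = 0
  let P2 : Fin K → Fin K → Prop := fun i j => ∀ y, f (D i 0) y = 0
  let P3 : Fin 4 → Fin K → Fin K → Prop := fun a i j => (∃ x, f x (D j a) ≠ 0) ∧
      ¬ ((∀ x ∈ hull (D i), 0 < f x (D j a)) ∨ (∀ x ∈ hull (D i), f x (D j a) < 0))
  let P4 : Fin K → Fin K → Prop := fun i j => (∃ y, f (D i 0) y ≠ 0) ∧
      ¬ ((∀ y ∈ hull (D j), 0 < f (D i 0) y) ∨ (∀ y ∈ hull (D j), f (D i 0) y < 0))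
  let S1 : Set (Fin K × Fin K) := {q | P1 q.1 q.2}
  let S2 : Set (Fin K × Fin K) := {q | P2 q.1 q.2}
  let S3 : Fin 4 → Set (Fin K × Fin K) := fun a => {q | P3 a q.1 q.2}
  let S4 : Set (Fin K × Fin K) := {q | P4 q.1 q.2}
  have c1 : S1.ncard ≤ B * K := by
    refine L3_count' P1 fun i => ?_
    refine le_trans (Set.ncard_le_ncard ?_ (Set.toFinite _)) (L3_sign hD (fun y => f x₀ y) (h2 x₀) ⟨y₀, h0⟩)
    rintro j ⟨a, ha⟩
    have h3 := ha x₀
    rintro (h4 | h4)
    · have h5 := h4 _ (L3_mem D j a)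
      simp only [h3, lt_irrefl] at h5
    · have h5 := h4 _ (L3_mem D j a)
      simp only [h3, lt_irrefl] at h5
  have c2 : S2.ncard ≤ B * K := by
    refine L3_count P2 fun j => ?_
    refine le_trans (Set.ncard_le_ncard ?_ (Set.toFinite _)) (L3_sign hD (fun x => f x y₀) (h1 y₀) ⟨x₀, h0⟩)
    intro i ha
    have h3 : f (D i 0) y₀ = 0 := ha y₀
    rintro (h4 | h4)
    · have h5 := h4 _ (L3_mem D i 0)
      simp only [h3, lt_irrefl] at h5
    · have h5 := h4 _ (L3_mem D i 0)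
      simp only [h3, lt_irrefl] at h5
  have c3 : ∀ a, (S3 a).ncard ≤ B * K := by
    intro a
    refine L3_count (P3 a) fun j => ?_
    by_cases hx : ∃ x, f x (D j a) ≠ 0
    · refine le_trans (Set.ncard_le_ncard ?_ (Set.toFinite _)) (L3_sign hD (fun x => f x (D j a)) (h1 _) hx)
      intro i hi
      exact hi.2
    · have : {i : Fin K | P3 a i j} = ∅ := by
        rw [Set.eq_empty_iff_forall_notMem]
        intro i hi
        exact hx hi.1
      rw [this, Set.ncard_empty]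
      exact Nat.zero_le _
  have c4 : S4.ncard ≤ B * K := by
    refine L3_count' P4 fun i => ?_
    by_cases hx : ∃ y, f (D i 0) y ≠ 0
    · refine le_trans (Set.ncard_le_ncard ?_ (Set.toFinite _)) (L3_sign hD (fun y => f (D i 0) y) (h2 _) hx)
      intro i hi
      exact hi.2
    · have : {j : Fin K | P4 i j} = ∅ := by
        rw [Set.eq_empty_iff_forall_notMem]
        intro j hj
        exact hx hj.1
      rw [this, Set.ncard_empty]
      exact Nat.zero_le _
  have hsub : {q : Fin K × Fin K | ¬ ((∀ x ∈ hull (D q.1), ∀ y ∈ hull (D q.2), 0 < f x y) ∨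
      (∀ x ∈ hull (D q.1), ∀ y ∈ hull (D q.2), f x y < 0))} ⊆
      S1 ∪ (S2 ∪ (S4 ∪ (S3 0 ∪ (S3 1 ∪ (S3 2 ∪ S3 3))))) := by
    rintro ⟨i, j⟩ hq
    by_contra hn
    simp only [Set.mem_union, not_or] at hn
    obtain ⟨n1, n2, n4, n30, n31, n32, n33⟩ := hn
    have n3 : ∀ a, (i, j) ∉ S3 a := by
      intro a
      fin_cases a
      · exact n30
      · exact n31
      · exact n32
      · exact n33
    apply hq
    have m1 : ∀ a, ∃ x, f x (D j a) ≠ 0 := by
      intro a
      by_contra hc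
      push Not at hc
      exact n1 ⟨a, hc⟩
    have m2 : ∃ y, f (D i 0) y ≠ 0 := by
      by_contra hc
      push Not at hc
      exact n2 hc
    have m3 : ∀ a, (∀ x ∈ hull (D i), 0 < f x (D j a)) ∨ (∀ x ∈ hull (D i), f x (D j a) < 0) := by
      intro a
      by_contra hc
      exact n3 a ⟨m1 a, hc⟩
    have m4 : (∀ y ∈ hull (D j), 0 < f (D i 0) y) ∨ (∀ y ∈ hull (D j), f (D i 0) y < 0) := by
      by_contra hc
      exact n4 ⟨m2, hc⟩
    rcases m4 with m4 | m4
    · left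
      intro x hx
      refine L3_pos (fun y => f x y) (h2 x) (D j) ?_
      intro a
      rcases m3 a with h | h
      · exact h x hx
      · have e1 := h _ (L3_mem D i 0)
        have e2 := m4 _ (L3_mem D j a)
        exact absurd e1 (not_lt.2 e2.le)
    · right
      intro x hx
      refine L3_neg (fun y => f x y) (h2 x) (D j) ?_
      intro a
      rcases m3 a with h | h
      · have e1 := h _ (L3_mem D i 0)
        have e2 := m4 _ (L3_mem D j a)
        exact absurd e1 (not_lt.2 e2.le)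
      · exact h x hx
  refine le_trans (Set.ncard_le_ncard hsub (Set.toFinite _)) ?_
  have u1 := Set.ncard_union_le S1 (S2 ∪ (S4 ∪ (S3 0 ∪ (S3 1 ∪ (S3 2 ∪ S3 3)))))
  have u2 := Set.ncard_union_le S2 (S4 ∪ (S3 0 ∪ (S3 1 ∪ (S3 2 ∪ S3 3))))
  have u3 := Set.ncard_union_le S4 (S3 0 ∪ (S3 1 ∪ (S3 2 ∪ S3 3)))
  have u4 := Set.ncard_union_le (S3 0) (S3 1 ∪ (S3 2 ∪ S3 3))
  have u5 := Set.ncard_union_le (S3 1) (S3 2 ∪ S3 3)
  have u6 := Set.ncard_union_le (S3 2) (S3 3)
  have e0 := c3 0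
  have e1 := c3 1
  have e2 := c3 2
  have e3 := c3 3
  have : 7 * B * K = 7 * (B * K) := by ring
  omega

end KnotA
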