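import Pool.Agent.Helper548.KnotA.Defs

namespace KnotA

theorem a0_bu {ι κ : Type} [DecidableEq ι] [DecidableEq κ] (𝒥 : Finset κ) (f : κ → Finset ι)
    (w : ι → ℝ) (h : ∀ J ∈ 𝒥, ∀ i ∈ f J, 0 ≤ w i) :
    ∑ i ∈ 𝒥.biUnion f, w i ≤ ∑ J ∈ 𝒥, ∑ i ∈ f J, w i := by
  induction 𝒥 using Finset.induction_on with
  | empty => simp
  | insert a s ha ih =>
    rw [Finset.biUnion_insert, Finset.sum_insert ha]
    have h1 := Finset.sum_union_inter (s₁ := f a) (s₂ := s.biUnion f) (f := w)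
    have h2 : 0 ≤ ∑ i ∈ f a ∩ s.biUnion f, w i :=
      Finset.sum_nonneg fun i hi => h a (Finset.mem_insert_self _ _) i (Finset.mem_inter.1 hi).1
    have h3 := ih fun J hJ => h J (Finset.mem_insert_of_mem hJ)
    linarith

theorem A0 {d : ℕ} {ι : Type} (I : Finset ι) (p : ι → (Fin d → ℝ)) (w : ι → ℝ)
    (hw : ∀ i ∈ I, 0 ≤ w i) (hW : 0 < ∑ i ∈ I, w i) :
    ∃ c : Fin d → ℝ, ∀ g : (Fin d → ℝ) →ₗ[ℝ] ℝ,
      (∑ i ∈ I, w i) / ((d : ℝ) + 1) ≤ mass I p w {x | g c ≤ g x} := by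
  classical
  obtain ⟨W, hWd⟩ : ∃ W : ℝ, W = ∑ i ∈ I, w i := ⟨_, rfl⟩
  rw [← hWd] at hW ⊢
  have hd1 : (0 : ℝ) < (d : ℝ) + 1 := by positivity
  obtain ⟨s, hs⟩ : ∃ s : Finset (Finset ι), ∀ J, J ∈ s ↔
      J ⊆ I ∧ W - W / ((d : ℝ) + 1) < ∑ i ∈ J, w i :=
    ⟨I.powerset.filter (fun J => W - W / ((d : ℝ) + 1) < ∑ i ∈ J, w i), fun J => by
      rw [Finset.mem_filter, Finset.mem_powerset]⟩
  have hex : ∀ 𝒥 : Finset (Finset ι), 𝒥 ⊆ s → 𝒥.card ≤ d + 1 → ∃ i ∈ I, ∀ J ∈ 𝒥, i ∈ J := by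
    intro 𝒥 h𝒥 hcard
    by_contra hcon
    push Not at hcon
    have h1 : I ⊆ 𝒥.biUnion (fun J => I \ J) := by
      intro i hi
      obtain ⟨J, hJ, hiJ⟩ := hcon i hi
      exact Finset.mem_biUnion.2 ⟨J, hJ, Finset.mem_sdiff.2 ⟨hi, hiJ⟩⟩
    have hnn : ∀ i ∈ 𝒥.biUnion (fun J => I \ J), 0 ≤ w i := by
      intro i hi
      obtain ⟨J, -, hiJ⟩ := Finset.mem_biUnion.1 hi
      exact hw i (Finset.mem_sdiff.1 hiJ).1
    have h2 : W ≤ ∑ J ∈ 𝒥, ∑ i ∈ I \ J, w i := by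
      rw [hWd]
      refine (Finset.sum_le_sum_of_subset_of_nonneg h1 fun i hi _ => hnn i hi).trans ?_
      refine a0_bu 𝒥 (fun J => I \ J) w ?_
      intro J _ i hi
      exact hw i (Finset.mem_sdiff.1 hi).1
    have h3 : ∀ J ∈ 𝒥, ∑ i ∈ I \ J, w i < W / ((d : ℝ) + 1) := by
      intro J hJ
      obtain ⟨h4, h5⟩ := (hs J).1 (h𝒥 hJ)
      have h6 := Finset.sum_sdiff (f := w) h4
      linarith
    rcases 𝒥.eq_empty_or_nonempty with h0 | h0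
    · rw [h0, Finset.sum_empty] at h2
      linarith
    · have h7 := Finset.sum_lt_sum_of_nonempty h0 h3
      rw [Finset.sum_const, nsmul_eq_mul] at h7
      have h8 : (𝒥.card : ℝ) ≤ (d : ℝ) + 1 := by exact_mod_cast hcard
      have h9 : (𝒥.card : ℝ) * (W / ((d : ℝ) + 1)) ≤ ((d : ℝ) + 1) * (W / ((d : ℝ) + 1)) :=
        mul_le_mul_of_nonneg_right h8 (by positivity)
      rw [mul_div_cancel₀ _ hd1.ne'] at h9
      linarith
  have hhelly : (⋂ J ∈ s, convexHull ℝ (p '' (J : Set ι))).Nonempty := by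
    refine Convex.helly_theorem' (𝕜 := ℝ) (fun J _ => convex_convexHull ℝ _) ?_
    intro 𝒥 h𝒥 hcard
    rw [Module.finrank_fintype_fun_eq_card, Fintype.card_fin] at hcard
    obtain ⟨i, hi, hiJ⟩ := hex 𝒥 h𝒥 hcard
    refine ⟨p i, ?_⟩
    rw [Set.mem_iInter₂]
    intro J hJ
    exact subset_convexHull ℝ _ ⟨i, hiJ J hJ, rfl⟩
  obtain ⟨c, hc⟩ := hhelly
  rw [Set.mem_iInter₂] at hc
  refine ⟨c, fun g => ?_⟩
  by_contra hcon
  rw [not_le] at hcon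
  have h1 := Finset.sum_filter_add_sum_filter_not I (fun i => p i ∈ {x | g c ≤ g x}) w
  have h2 : mass I p w {x | g c ≤ g x} = ∑ i ∈ I.filter (fun i => p i ∈ {x | g c ≤ g x}), w i := rfl
  rw [h2] at hcon
  have h3 : I.filter (fun i => ¬ p i ∈ {x | g c ≤ g x}) ∈ s := by
    rw [hs]
    refine ⟨Finset.filter_subset _ _, ?_⟩
    rw [← hWd] at h1
    linarith
  have h4 := hc _ h3
  have h5 : convexHull ℝ (p '' ((I.filter (fun i => ¬ p i ∈ {x | g c ≤ g x}) : Finset ι) : Set ι)) ⊆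
      {x | g x < g c} := by
    refine convexHull_min ?_ (convex_halfSpace_lt g.isLinear (g c))
    rintro _ ⟨i, hi, rfl⟩
    have h6 := (Finset.mem_filter.1 (Finset.mem_coe.1 hi)).2
    exact not_le.1 (show ¬ (g c ≤ g (p i)) from h6)
  have h7 : g c < g c := h5 h4
  exact lt_irrefl _ h7

end KnotA
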