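import Pool.Agent.Helper548.KnotA.Defs

namespace KnotA

theorem affInterp {d : ℕ} (c : Fin (d + 1) → (Fin d → ℝ)) (h : AffineIndependent ℝ c)
    (s : Fin (d + 1) → ℝ) : ∃ (g : (Fin d → ℝ) →ₗ[ℝ] ℝ) (e : ℝ), ∀ j, g (c j) - e = s j := by
  have htop : affineSpan ℝ (Set.range c) = ⊤ := by
    rw [h.affineSpan_eq_top_iff_card_eq_finrank_add_one]
    simp
  let b : AffineBasis (Fin (d + 1)) ℝ (Fin d → ℝ) := ⟨c, h, htop⟩
  let f : (Fin d → ℝ) →ᵃ[ℝ] ℝ := ∑ j, s j • b.coord j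
  have hf : ∀ k, f (c k) = s k := by
    intro k
    have h1 : ∀ j, b.coord j (c k) = if j = k then 1 else 0 := fun j => b.coord_apply j k
    have h2 : f (c k) = ∑ j, s j * b.coord j (c k) := by
      change (∑ j, s j • b.coord j) (c k) = _
      have h3 : ∀ t : Finset (Fin (d + 1)), (∑ j ∈ t, s j • b.coord j) (c k) =
          ∑ j ∈ t, s j * b.coord j (c k) := by
        intro t
        induction t using Finset.induction_on with
        | empty => simp
        | insert a t ha ih =>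
          rw [Finset.sum_insert ha, Finset.sum_insert ha, AffineMap.coe_add, Pi.add_apply, ih]
          rfl
      exact h3 Finset.univ
    rw [h2]
    simp [h1]
  refine ⟨f.linear, -f 0, fun j => ?_⟩
  have h4 : f (c j) = f.linear (c j) + f 0 := by
    have := congrFun f.decomp (c j)
    simpa using this
  rw [← hf j, h4]
  ring

theorem depHyper {d : ℕ} (c : Fin (d + 1) → (Fin d → ℝ)) (h : ¬ AffineIndependent ℝ c) :
    ∃ (g : (Fin d → ℝ) →ₗ[ℝ] ℝ) (e : ℝ), g ≠ 0 ∧ ∀ j, g (c j) = e := by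
  have h1 : Module.finrank ℝ (vectorSpan ℝ (Set.range c)) ≠ d := by
    intro h2
    exact h ((affineIndependent_iff_finrank_vectorSpan_eq ℝ c (by simp)).2 h2)
  have h2 : vectorSpan ℝ (Set.range c) < ⊤ := by
    rw [lt_top_iff_ne_top]
    intro h3
    apply h1
    rw [h3]
    simp
  obtain ⟨g, hg, hle⟩ := Submodule.exists_le_ker_of_lt_top _ h2
  refine ⟨g, g (c 0), hg, fun j => ?_⟩
  have h4 : c j -ᵥ c 0 ∈ vectorSpan ℝ (Set.range c) :=
    vsub_mem_vectorSpan ℝ ⟨j, rfl⟩ ⟨0, rfl⟩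
  have h5 := hle h4
  rw [LinearMap.mem_ker, vsub_eq_sub, map_sub] at h5
  linarith

theorem indepHyper {d : ℕ} (c : Fin (d + 1) → (Fin d → ℝ)) (h : AffineIndependent ℝ c)
    (g : (Fin d → ℝ) →ₗ[ℝ] ℝ) (e : ℝ) (hg : ∀ j, g (c j) = e) : g = 0 := by
  have h1 := (affineIndependent_iff_finrank_vectorSpan_eq ℝ c (n := d) (by simp)).1 h
  have h2 : vectorSpan ℝ (Set.range c) = ⊤ := by
    apply Submodule.eq_top_of_finrank_eq
    rw [h1]
    simp
  have h3 : vectorSpan ℝ (Set.range c) ≤ LinearMap.ker g := by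
    rw [vectorSpan_def, Submodule.span_le]
    rintro _ ⟨_, ⟨i, rfl⟩, _, ⟨j, rfl⟩, rfl⟩
    change g (c i - c j) = 0
    rw [map_sub, hg, hg, sub_self]
  rw [h2, top_le_iff] at h3
  exact LinearMap.ker_eq_top.1 h3

end KnotA
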