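import Pool.Agent.Helper548.KnotA.A0
import Pool.Agent.Helper548.KnotA.Affine

namespace KnotA

-- helper lemmas for A1

open Classical in
theorem A1_mass_eq {ι V : Type} (I : Finset ι) (p : ι → V) (w : ι → ℝ) (S : Set V) :
    mass I p w S = ∑ i ∈ I, if p i ∈ S then w i else 0 := by
  unfold mass
  rw [Finset.sum_filter]

theorem A1_mass_mono {ι V : Type} (I : Finset ι) (p : ι → V) (w : ι → ℝ) (hw : ∀ i ∈ I, 0 ≤ w i)
    {S T : Set V} (h : S ⊆ T) : mass I p w S ≤ mass I p w T := by
  classical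
  rw [A1_mass_eq, A1_mass_eq]
  refine Finset.sum_le_sum fun i hi => ?_
  by_cases h1 : p i ∈ S
  · rw [if_pos h1, if_pos (h h1)]
  · rw [if_neg h1]
    split_ifs
    · exact hw i hi
    · exact le_rfl

theorem A1_mass_add {ι V : Type} (I : Finset ι) (p : ι → V) (w : ι → ℝ) (hw : ∀ i ∈ I, 0 ≤ w i)
    {S T U : Set V} (h : S ⊆ T ∪ U) : mass I p w S ≤ mass I p w T + mass I p w U := by
  classical
  rw [A1_mass_eq, A1_mass_eq, A1_mass_eq, ← Finset.sum_add_distrib]
  refine Finset.sum_le_sum fun i hi => ?_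
  have h0 := hw i hi
  by_cases h1 : p i ∈ S
  · rw [if_pos h1]
    rcases h h1 with h2 | h2
    · rw [if_pos h2]
      split_ifs <;> linarith
    · rw [if_pos h2]
      split_ifs <;> linarith
  · rw [if_neg h1]
    split_ifs <;> linarith

theorem A1 {d : ℕ} (hd : 0 < d) {ι : Type} (I : Finset ι) (p : ι → (Fin d → ℝ))
    (w : Fin (d + 1) → ι → ℝ) (hw : ∀ j, ∀ i ∈ I, 0 ≤ w j i) (hW : ∀ j, 0 < ∑ i ∈ I, w j i)
    (hyp : ∀ j, ∀ (g : (Fin d → ℝ) →ₗ[ℝ] ℝ) (c : ℝ), g ≠ 0 →
      mass I p (w j) {x | g x = c} ≤ (1 / (2 * ((d : ℝ) + 1))) * ∑ i ∈ I, w j i)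
    (J : Finset (Fin (d + 1))) :
    ∃ (g : (Fin d → ℝ) →ₗ[ℝ] ℝ) (c : ℝ), g ≠ 0 ∧
      (∀ j, j ∈ J → (1 / (2 * ((d : ℝ) + 1))) * ∑ i ∈ I, w j i ≤ mass I p (w j) {x | c < g x}) ∧
      (∀ j, j ∉ J → (1 / (2 * ((d : ℝ) + 1))) * ∑ i ∈ I, w j i ≤ mass I p (w j) {x | g x < c}) := by
  have hd1 : (0 : ℝ) < (d : ℝ) + 1 := by positivity
  choose c hc using fun j => A0 I p (w j) (hw j) (hW j)
  have hhalf : ∀ j, (1 / (2 * ((d : ℝ) + 1))) * ∑ i ∈ I, w j i =
      ((∑ i ∈ I, w j i) / ((d : ℝ) + 1)) / 2 := by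
    intro j
    field_simp
  have hpos : ∀ j, 0 < (∑ i ∈ I, w j i) / ((d : ℝ) + 1) := fun j => div_pos (hW j) hd1
  by_cases hind : AffineIndependent ℝ c
  · obtain ⟨g, e, hge⟩ := affInterp c hind
      (fun j => if j ∈ J then (((j : ℕ) : ℝ) + 1) else -(((j : ℕ) : ℝ) + 1))
    refine ⟨g, e, ?_, ?_, ?_⟩
    · rintro rfl
      have h0 := hge ⟨0, by omega⟩
      have h1 := hge ⟨1, by omega⟩
      simp only [LinearMap.zero_apply] at h0 h1
      split_ifs at h0 h1 <;> norm_num at h0 h1 <;> linarith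
    · intro j hj
      have h1 := hge j
      rw [if_pos hj] at h1
      have h2 : (0 : ℝ) ≤ ((j : ℕ) : ℝ) := Nat.cast_nonneg _
      have h3 : mass I p (w j) {x | g (c j) ≤ g x} ≤ mass I p (w j) {x | e < g x} := by
        apply A1_mass_mono I p (w j) (hw j)
        intro x hx
        have hx' : g (c j) ≤ g x := hx
        show e < g x
        linarith
      have h4 := hc j g
      rw [hhalf]
      linarith [hpos j]
    · intro j hj
      have h1 := hge j
      rw [if_neg hj] at h1
      have h2 : (0 : ℝ) ≤ ((j : ℕ) : ℝ) := Nat.cast_nonneg _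
      have h3 : mass I p (w j) {x | (-g) (c j) ≤ (-g) x} ≤ mass I p (w j) {x | g x < e} := by
        apply A1_mass_mono I p (w j) (hw j)
        intro x hx
        have hx' : (-g) (c j) ≤ (-g) x := hx
        rw [LinearMap.neg_apply, LinearMap.neg_apply] at hx'
        show g x < e
        linarith
      have h4 := hc j (-g)
      rw [hhalf]
      linarith [hpos j]
  · obtain ⟨g, e, hg, hge⟩ := depHyper c hind
    refine ⟨g, e, hg, ?_, ?_⟩
    · intro j _
      have h1 := hc j g
      rw [hge j] at h1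
      have h2 := hyp j g e hg
      have h3 : mass I p (w j) {x | e ≤ g x} ≤
          mass I p (w j) {x | g x = e} + mass I p (w j) {x | e < g x} := by
        apply A1_mass_add I p (w j) (hw j)
        intro x hx
        have hx' : e ≤ g x := hx
        rcases hx'.eq_or_lt with h | h
        · exact Or.inl h.symm
        · exact Or.inr h
      rw [hhalf] at h2 ⊢
      linarith
    · intro j _
      have h1 := hc j (-g)
      have h2 := hyp j g e hg
      have h3 : mass I p (w j) {x | (-g) (c j) ≤ (-g) x} ≤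
          mass I p (w j) {x | g x = e} + mass I p (w j) {x | g x < e} := by
        apply A1_mass_add I p (w j) (hw j)
        intro x hx
        have hx' : (-g) (c j) ≤ (-g) x := hx
        rw [LinearMap.neg_apply, LinearMap.neg_apply, hge j] at hx'
        have hx'' : g x ≤ e := by linarith
        rcases hx''.eq_or_lt with h | h
        · exact Or.inl h
        · exact Or.inr h
      rw [hhalf] at h2 ⊢
      linarith

end KnotA
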