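import Pool.Agent.Helper548.KnotA.A1

namespace KnotA

theorem h170_mass_eq {ι V : Type} (I : Finset ι) (p : ι → V) (w : ι → ℝ) (S : Set V) :
    mass I p w S = ∑ i ∈ I, (p ⁻¹' S).indicator w i := by
  classical
  unfold mass
  rw [Finset.sum_filter]
  apply Finset.sum_congr rfl
  intro i _
  rw [Set.indicator_apply]
  by_cases h : p i ∈ S
  · rw [if_pos h, if_pos (show i ∈ p ⁻¹' S from h)]
  · rw [if_neg h, if_neg (show i ∉ p ⁻¹' S from h)]

theorem h170_mass_ind {ι V : Type} (I : Finset ι) (p : ι → V) (w : ι → ℝ) (R S : Set V) :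
    mass I p ((p ⁻¹' R).indicator w) S = mass I p w (R ∩ S) := by
  rw [h170_mass_eq, h170_mass_eq]
  apply Finset.sum_congr rfl
  intro i _
  rw [Set.indicator_indicator, Set.preimage_inter, Set.inter_comm]

theorem h170_mass_mono {ι V : Type} (I : Finset ι) (p : ι → V) (w : ι → ℝ)
    (hw : ∀ i ∈ I, 0 ≤ w i) {R S : Set V} (h : R ⊆ S) :
    mass I p w R ≤ mass I p w S := by
  classical
  rw [h170_mass_eq, h170_mass_eq]
  apply Finset.sum_le_sum
  intro i hi
  rw [Set.indicator_apply, Set.indicator_apply]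
  by_cases h1 : i ∈ p ⁻¹' R
  · rw [if_pos h1, if_pos (show i ∈ p ⁻¹' S from h h1)]
  · rw [if_neg h1]
    split_ifs
    · exact hw i hi
    · exact le_rfl

theorem h170_A2 {d : ℕ} (hd : 0 < d) {ι : Type} (I : Finset ι) (p : ι → (Fin d → ℝ)) (w : ι → ℝ)
    (hw : ∀ i ∈ I, 0 ≤ w i) (hW : 0 < ∑ i ∈ I, w i)
    (hyp : ∀ (g : (Fin d → ℝ) →ₗ[ℝ] ℝ) (c : ℝ), g ≠ 0 →
      mass I p w {x | g x = c} ≤ (1 / (2 * ((d : ℝ) + 1))) ^ (2 ^ (d + 1) + 1) * ∑ i ∈ I, w i)
    (Js : Finset (Finset (Fin (d + 1)))) :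
    ∃ (g : Finset (Fin (d + 1)) → ((Fin d → ℝ) →ₗ[ℝ] ℝ)) (c : Finset (Fin (d + 1)) → ℝ),
      (∀ J, g J ≠ 0) ∧ ∀ j, (1 / (2 * ((d : ℝ) + 1))) ^ Js.card * ∑ i ∈ I, w i ≤
        mass I p w {x | ∀ J ∈ Js, (j ∈ J → c J < g J x) ∧ (j ∉ J → g J x < c J)} := by
  classical
  have hθ0 : 0 < (1 / (2 * ((d : ℝ) + 1))) := by positivity
  have hθ1 : (1 / (2 * ((d : ℝ) + 1))) ≤ 1 := by
    rw [div_le_one (by positivity)]
    have : (0 : ℝ) ≤ d := Nat.cast_nonneg d
    linarith
  obtain ⟨θ, hθ⟩ : ∃ θ : ℝ, θ = (1 / (2 * ((d : ℝ) + 1))) := ⟨_, rfl⟩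
  rw [← hθ] at hyp hθ0 hθ1 ⊢
  induction Js using Finset.induction_on with
  | empty =>
    refine ⟨fun _ => LinearMap.proj ⟨0, hd⟩, fun _ => 0, ?_, ?_⟩
    · intro _ h0
      have h1 := LinearMap.congr_fun h0 (fun _ => (1 : ℝ))
      simp at h1
    · intro j
      rw [h170_mass_eq]
      simp
  | insert J Js hJ ih =>
    obtain ⟨g, c, hg, hm⟩ := ih
    obtain ⟨R, hR⟩ : ∃ R : Fin (d + 1) → Set (Fin d → ℝ), R = fun j =>
      {x | ∀ J ∈ Js, (j ∈ J → c J < g J x) ∧ (j ∉ J → g J x < c J)} := ⟨_, rfl⟩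
    have hm' : ∀ j, θ ^ Js.card * ∑ i ∈ I, w i ≤ mass I p w (R j) := by
      intro j
      rw [hR]
      exact hm j
    have htot : ∀ j, ∑ i ∈ I, (p ⁻¹' (R j)).indicator w i = mass I p w (R j) := by
      intro j
      rw [h170_mass_eq]
    have hcard : Js.card ≤ 2 ^ (d + 1) := by
      refine le_trans (Finset.card_le_univ Js) ?_
      rw [Fintype.card_finset, Fintype.card_fin]
    have hA := A1 hd I p (fun j => (p ⁻¹' (R j)).indicator w)
      (by
        intro j i hi
        rw [Set.indicator_apply]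
        split_ifs
        · exact hw i hi
        · exact le_rfl)
      (by
        intro j
        show 0 < ∑ i ∈ I, (p ⁻¹' (R j)).indicator w i
        rw [htot]
        refine lt_of_lt_of_le ?_ (hm' j)
        positivity)
      (by
        intro j g' c' hg'
        show mass I p ((p ⁻¹' (R j)).indicator w) {x | g' x = c'} ≤
          (1 / (2 * ((d : ℝ) + 1))) * ∑ i ∈ I, (p ⁻¹' (R j)).indicator w i
        rw [← hθ, h170_mass_ind, htot]
        calc mass I p w (R j ∩ {x | g' x = c'}) ≤ mass I p w {x | g' x = c'} :=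
              h170_mass_mono I p w hw Set.inter_subset_right
          _ ≤ θ ^ (2 ^ (d + 1) + 1) * ∑ i ∈ I, w i := hyp g' c' hg'
          _ ≤ θ ^ (Js.card + 1) * ∑ i ∈ I, w i := by
              apply mul_le_mul_of_nonneg_right _ hW.le
              exact pow_le_pow_of_le_one hθ0.le hθ1 (by omega)
          _ = θ * (θ ^ Js.card * ∑ i ∈ I, w i) := by ring
          _ ≤ θ * mass I p w (R j) := mul_le_mul_of_nonneg_left (hm' j) hθ0.le)
      J
    obtain ⟨g', c', hg', h1, h2⟩ := hA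
    refine ⟨Function.update g J g', Function.update c J c', ?_, ?_⟩
    · intro J'
      by_cases hJ' : J' = J
      · subst hJ'
        rw [Function.update_self]
        exact hg'
      · rw [Function.update_of_ne hJ']
        exact hg J'
    · intro j
      rw [Finset.card_insert_of_notMem hJ]
      have hset : ∀ x, (∀ J' ∈ insert J Js,
          (j ∈ J' → Function.update c J c' J' < Function.update g J g' J' x) ∧
          (j ∉ J' → Function.update g J g' J' x < Function.update c J c' J')) ↔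
          (x ∈ R j ∧ (j ∈ J → c' < g' x) ∧ (j ∉ J → g' x < c')) := by
        intro x
        rw [Finset.forall_mem_insert, Function.update_self, Function.update_self, and_comm]
        apply and_congr_left'
        rw [hR]
        apply forall₂_congr
        intro J' hJ'
        have hne : J' ≠ J := fun h => hJ (h ▸ hJ')
        rw [Function.update_of_ne hne, Function.update_of_ne hne]
      have hpow : θ ^ (Js.card + 1) * ∑ i ∈ I, w i ≤ θ * mass I p w (R j) := by
        calc θ ^ (Js.card + 1) * ∑ i ∈ I, w i = θ * (θ ^ Js.card * ∑ i ∈ I, w i) := by ring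
          _ ≤ θ * mass I p w (R j) := mul_le_mul_of_nonneg_left (hm' j) hθ0.le
      refine le_trans hpow ?_
      by_cases hj : j ∈ J
      · have h3 := h1 j hj
        have h4 : θ * mass I p w (R j) ≤ mass I p w (R j ∩ {x | c' < g' x}) := by
          rw [← htot, ← h170_mass_ind, hθ]
          exact h3
        refine le_trans h4 ?_
        apply h170_mass_mono I p w hw
        rintro x ⟨hx1, hx2⟩
        exact (hset x).2 ⟨hx1, fun _ => hx2, fun h => absurd hj h⟩
      · have h3 := h2 j hj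
        have h4 : θ * mass I p w (R j) ≤ mass I p w (R j ∩ {x | g' x < c'}) := by
          rw [← htot, ← h170_mass_ind, hθ]
          exact h3
        refine le_trans h4 ?_
        apply h170_mass_mono I p w hw
        rintro x ⟨hx1, hx2⟩
        exact (hset x).2 ⟨hx1, fun h => absurd h hj, fun _ => hx2⟩

theorem A2 {d : ℕ} (hd : 0 < d) {ι : Type} (I : Finset ι) (p : ι → (Fin d → ℝ)) (w : ι → ℝ)
    (hw : ∀ i ∈ I, 0 ≤ w i) (hW : 0 < ∑ i ∈ I, w i)
    (hyp : ∀ (g : (Fin d → ℝ) →ₗ[ℝ] ℝ) (c : ℝ), g ≠ 0 →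
      mass I p w {x | g x = c} ≤ (1 / (2 * ((d : ℝ) + 1))) ^ (2 ^ (d + 1) + 1) * ∑ i ∈ I, w i) :
    ∃ (g : Finset (Fin (d + 1)) → ((Fin d → ℝ) →ₗ[ℝ] ℝ)) (c : Finset (Fin (d + 1)) → ℝ),
      (∀ J, g J ≠ 0) ∧ ∀ j, (1 / (2 * ((d : ℝ) + 1))) ^ (2 ^ (d + 1)) * ∑ i ∈ I, w i ≤
        mass I p w (Reg g c j) := by
  obtain ⟨g, c, hg, hm⟩ := h170_A2 hd I p w hw hW hyp Finset.univ
  refine ⟨g, c, hg, ?_⟩
  intro j
  have h1 := hm j
  rw [Finset.card_univ, Fintype.card_finset, Fintype.card_fin] at h1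
  refine le_trans h1 ?_
  apply h170_mass_mono I p w hw
  intro x hx J
  exact hx J (Finset.mem_univ J)

end KnotA
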