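import Pool.Agent.Helper548.KnotA.Affine

namespace KnotA

theorem Reg_convex {d : ℕ} (g : Finset (Fin (d + 1)) → ((Fin d → ℝ) →ₗ[ℝ] ℝ))
    (c : Finset (Fin (d + 1)) → ℝ) (j : Fin (d + 1)) : Convex ℝ (Reg g c j) := by
  intro x hx y hy a b ha hb hab J
  obtain ⟨hx1, hx2⟩ := hx J
  obtain ⟨hy1, hy2⟩ := hy J
  rw [map_add, map_smul, map_smul, smul_eq_mul, smul_eq_mul]
  have hc : c J = a * c J + b * c J := by rw [← add_mul, hab, one_mul]
  constructor
  · intro hj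
    have h1 := hx1 hj
    have h2 := hy1 hj
    rw [hc]
    rcases ha.eq_or_lt with h0 | h0
    · have hb1 : b = 1 := by linarith
      rw [← h0, hb1]
      linarith
    · have h3 : a * c J < a * g J x := mul_lt_mul_of_pos_left h1 h0
      have h4 : b * c J ≤ b * g J y := mul_le_mul_of_nonneg_left h2.le hb
      linarith
  · intro hj
    have h1 := hx2 hj
    have h2 := hy2 hj
    rw [hc]
    rcases ha.eq_or_lt with h0 | h0
    · have hb1 : b = 1 := by linarith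
      rw [← h0, hb1]
      linarith
    · have h3 : a * g J x < a * c J := mul_lt_mul_of_pos_left h1 h0
      have h4 : b * g J y ≤ b * c J := mul_le_mul_of_nonneg_left h2.le hb
      linarith

theorem Reg_disjoint {d : ℕ} (g : Finset (Fin (d + 1)) → ((Fin d → ℝ) →ₗ[ℝ] ℝ))
    (c : Finset (Fin (d + 1)) → ℝ) (i j : Fin (d + 1)) (hij : i ≠ j) :
    Disjoint (Reg g c i) (Reg g c j) := by
  rw [Set.disjoint_left]
  intro x hx hy
  have h1 := (hx {i}).1 (Finset.mem_singleton_self i)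
  have h2 := (hy {i}).2 (by
    rw [Finset.mem_singleton]
    exact fun h => hij h.symm)
  exact lt_asymm h1 h2

theorem A3 {d : ℕ} (g : Finset (Fin (d + 1)) → ((Fin d → ℝ) →ₗ[ℝ] ℝ))
    (c : Finset (Fin (d + 1)) → ℝ) (h : (Fin d → ℝ) →ₗ[ℝ] ℝ) (e : ℝ) (hh : h ≠ 0) :
    ∃ j, (∀ x ∈ Reg g c j, e < h x) ∨ (∀ x ∈ Reg g c j, h x < e) := by
  classical
  by_contra hcon
  push Not at hcon
  have hpt : ∀ j, ∃ p ∈ Reg g c j, h p = e := by
    intro j
    obtain ⟨⟨x, hx, hx1⟩, ⟨y, hy, hy1⟩⟩ := hcon j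
    have hconv : Convex ℝ (h '' Reg g c j) := (Reg_convex g c j).linear_image h
    have := hconv.ordConnected.out ⟨x, hx, rfl⟩ ⟨y, hy, rfl⟩ ⟨hx1, hy1⟩
    obtain ⟨p, hp, hpe⟩ := this
    exact ⟨p, hp, hpe⟩
  choose p hp hpe using hpt
  have hdep : ¬ AffineIndependent ℝ p := fun hi => hh (indepHyper p hi h e hpe)
  obtain ⟨I, z, hz1, hz2⟩ := Convex.radon_partition hdep
  obtain ⟨J, hJ⟩ : ∃ J : Finset (Fin (d + 1)), ∀ j, j ∈ J ↔ j ∈ I :=
    ⟨Finset.univ.filter (fun j => j ∈ I), fun j => by simp⟩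
  have h1 : convexHull ℝ (p '' I) ⊆ {x | c J < g J x} := by
    apply convexHull_min
    · rintro _ ⟨j, hj, rfl⟩
      exact (hp j J).1 ((hJ j).mpr hj)
    · exact convex_halfSpace_gt (g J).isLinear (c J)
  have h2 : convexHull ℝ (p '' Iᶜ) ⊆ {x | g J x < c J} := by
    apply convexHull_min
    · rintro _ ⟨j, hj, rfl⟩
      exact (hp j J).2 (fun hj' => hj ((hJ j).mp hj'))
    · exact convex_halfSpace_lt (g J).isLinear (c J)
  have h3 : c J < g J z := h1 hz1
  have h4 : g J z < c J := h2 hz2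
  exact lt_asymm h3 h4

end KnotA
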