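import Pool.Agent.Helper548.KnotA.Defs

namespace KnotA

theorem caraPigeon (S X : Finset R3) (hX : X.Nonempty) (h : ∀ x ∈ X, x ∈ convexHull ℝ (S : Set R3)) :
    ∃ v : Fin 4 → R3, (∀ i, v i ∈ S) ∧ X.card ≤ S.card ^ 4 * cnt X (hull v) := by
  classical
  have hex : ∀ x ∈ X, ∃ v : Fin 4 → R3, (∀ i, v i ∈ S) ∧ x ∈ hull v := by
    intro x hx
    have hxc := h x hx
    rw [convexHull_eq_union] at hxc
    simp only [Set.mem_iUnion] at hxc
    obtain ⟨t, hts, hai, hxt⟩ := hxc
    have hcard : Fintype.card t ≤ 4 := by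
      refine hai.card_le_finrank_succ.trans ?_
      refine Nat.succ_le_succ ((Submodule.finrank_le _).trans ?_)
      simp [R3]
    have hne : Nonempty t := by
      have : (t : Set R3).Nonempty := by
        rw [← convexHull_nonempty_iff (𝕜 := ℝ)]
        exact ⟨x, hxt⟩
      obtain ⟨y, hy⟩ := this
      exact ⟨⟨y, hy⟩⟩
    obtain ⟨f⟩ : Nonempty (t ↪ Fin 4) := by
      apply Function.Embedding.nonempty_of_card_le
      simpa using hcard
    obtain ⟨g, hsurj⟩ : ∃ g : Fin 4 → t, Function.Surjective g :=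
      ⟨Function.invFun f, Function.invFun_surjective f.injective⟩
    refine ⟨fun i => (g i : R3), fun i => hts (g i).2, ?_⟩
    have hr : Set.range (fun i => ((g i : t) : R3)) = (t : Set R3) := by
      ext y
      constructor
      · rintro ⟨i, rfl⟩
        exact (g i).2
      · intro hy
        obtain ⟨i, hi⟩ := hsurj ⟨y, hy⟩
        exact ⟨i, by simp only [hi]⟩
    unfold hull
    rw [hr]
    exact hxt
  choose! F hFS hFx using hex
  set P := Fintype.piFinset (fun _ : Fin 4 => S) with hP
  have hmaps : ∀ x ∈ X, F x ∈ P := by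
    intro x hx
    rw [hP, Fintype.mem_piFinset]
    exact hFS x hx
  have hPcard : P.card = S.card ^ 4 := by
    rw [hP, Fintype.card_piFinset]
    simp
  by_contra hcon
  push Not at hcon
  obtain ⟨x0, hx0⟩ := hX
  have hPne : P.Nonempty := ⟨F x0, hmaps x0 hx0⟩
  have h1 : X.card = ∑ v ∈ P, (X.filter (fun x => F x = v)).card :=
    Finset.card_eq_sum_card_fiberwise hmaps
  have h2 : X.card ≤ ∑ v ∈ P, cnt X (hull v) := by
    rw [h1]
    apply Finset.sum_le_sum
    intro v _
    unfold cnt
    apply Finset.card_le_card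
    intro x hx
    rw [Finset.mem_filter] at hx ⊢
    refine ⟨hx.1, ?_⟩
    rw [← hx.2]
    exact hFx x hx.1
  have h3 : ∑ v ∈ P, S.card ^ 4 * cnt X (hull v) < ∑ v ∈ P, X.card := by
    apply Finset.sum_lt_sum_of_nonempty hPne
    intro v hv
    rw [hP, Fintype.mem_piFinset] at hv
    exact hcon v hv
  rw [← Finset.mul_sum, Finset.sum_const, hPcard, smul_eq_mul] at h3
  have h4 := Nat.mul_le_mul_left (S.card ^ 4) h2
  omega

end KnotA
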