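import Pool.Agent.Helper548.KnotA.Cut

namespace KnotA

theorem multicut : ∃ N : ℕ → ℕ → ℕ, ∀ (L : List ((R3 →ₗ[ℝ] ℝ) × ℝ)) (S : Finset R3),
    ∃ S' : Finset R3, S'.card ≤ N L.length S.card ∧
      convexHull ℝ (S' : Set R3) = convexHull ℝ (S : Set R3) ∩ {x | ∀ q ∈ L, q.2 ≤ q.1 x} := by
  refine ⟨fun k s => Nat.rec s (fun _ m => m + m ^ 2) k, ?_⟩
  intro L S
  induction L with
  | nil =>
    refine ⟨S, le_rfl, ?_⟩
    simp
  | cons q L ih =>
    obtain ⟨S1, hS1, h1⟩ := ih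
    obtain ⟨S', hS', h2⟩ := cut S1 q.1 q.2
    refine ⟨S', ?_, ?_⟩
    · refine hS'.trans ?_
      show _ ≤ (Nat.rec S.card (fun _ m => m + m ^ 2) L.length : ℕ) +
        (Nat.rec S.card (fun _ m => m + m ^ 2) L.length : ℕ) ^ 2
      exact Nat.add_le_add hS1 (Nat.pow_le_pow_left hS1 2)
    · rw [h2, h1]
      ext x
      constructor
      · rintro ⟨⟨hx1, hx2⟩, hx3⟩
        refine ⟨hx1, fun p hp => ?_⟩
        rcases List.mem_cons.1 hp with rfl | hp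
        · exact hx3
        · exact hx2 p hp
      · rintro ⟨hx1, hx2⟩
        exact ⟨⟨hx1, fun p hp => hx2 p (List.mem_cons_of_mem _ hp)⟩, hx2 q List.mem_cons_self⟩

end KnotA
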