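import Pool.Agent.Helper548.KnotA.A2
import Pool.Agent.Helper548.KnotA.A3
import Pool.Agent.Helper548.KnotA.Multicut
import Pool.Agent.Helper548.KnotA.Cara

namespace KnotA

theorem mass_eq_cnt_aux (X : Finset R3) (S : Set R3) :
    mass X (fun x => x) (fun _ => (1 : ℝ)) S = (cnt X S : ℝ) := by
  unfold mass cnt
  simp

theorem margin_aux (g : Finset (Fin 4) → (R3 →ₗ[ℝ] ℝ)) (c : Finset (Fin 4) → ℝ) (j : Fin 4)
    (X : Finset R3) (hX : ∀ x ∈ X, x ∈ Reg g c j) :
    ∃ δ : ℝ, 0 < δ ∧ ∀ x ∈ X, ∀ J : Finset (Fin 4), (j ∈ J → c J + δ ≤ g J x) ∧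
      (j ∉ J → -c J + δ ≤ -(g J x)) := by
  classical
  by_cases hne : X.Nonempty
  · let m : R3 × Finset (Fin 4) → ℝ := fun q => if j ∈ q.2 then g q.2 q.1 - c q.2 else c q.2 - g q.2 q.1
    have hne2 : (X ×ˢ (Finset.univ : Finset (Finset (Fin 4)))).Nonempty :=
      hne.product Finset.univ_nonempty
    obtain ⟨q, hq, hmin⟩ := Finset.exists_min_image (X ×ˢ (Finset.univ : Finset (Finset (Fin 4)))) m hne2
    have hqX : q.1 ∈ X := (Finset.mem_product.1 hq).1
    refine ⟨m q, ?_, ?_⟩
    · have h := hX q.1 hqX q.2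
      simp only [m]
      split_ifs with hj
      · linarith [h.1 hj]
      · linarith [h.2 hj]
    · intro x hx J
      have h2 := hmin (x, J) (Finset.mem_product.2 ⟨hx, Finset.mem_univ _⟩)
      constructor
      · intro hj
        have : m (x, J) = g J x - c J := by simp only [m]; rw [if_pos hj]
        rw [this] at h2
        linarith
      · intro hj
        have : m (x, J) = c J - g J x := by simp only [m]; rw [if_neg hj]
        rw [this] at h2
        linarith
  · rw [Finset.not_nonempty_iff_eq_empty] at hne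
    subst hne
    exact ⟨1, one_pos, fun x hx => absurd hx (Finset.notMem_empty x)⟩

theorem A4 : ∃ (c : ℝ) (n0 : ℕ), 0 < c ∧ c ≤ 1 ∧ ∀ (v : Fin 4 → R3) (X : Finset R3),
    (∀ x ∈ X, x ∈ hull v) → PlaneFour X → n0 ≤ X.card →
    ∃ D : Fin 4 → (Fin 4 → R3), IsFam 3 v D ∧ ∀ j, c * X.card ≤ (cnt X (hull (D j)) : ℝ) := by
  classical
  obtain ⟨N, hN⟩ := multicut
  set K0 : ℕ := (Finset.univ : Finset (Finset (Fin 4))).card with hK0
  set M : ℕ := 1 + ∑ k ∈ Finset.range 5, N K0 k with hM
  have hM1 : (1 : ℝ) ≤ (M : ℝ) := by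
    have : 1 ≤ M := by rw [hM]; omega
    exact_mod_cast this
  have hM4 : (1 : ℝ) ≤ (M : ℝ) ^ 4 := one_le_pow₀ hM1
  have hNM : ∀ k, k ≤ 4 → N K0 k ≤ M := by
    intro k hk
    have h1 : N K0 k ≤ ∑ k ∈ Finset.range 5, N K0 k :=
      Finset.single_le_sum (f := fun k => N K0 k) (fun _ _ => Nat.zero_le _)
        (Finset.mem_range.2 (by omega))
    omega
  refine ⟨(1 / 8 : ℝ) ^ 16 / (M : ℝ) ^ 4, 4 * 8 ^ 17, by positivity, ?_, ?_⟩
  · rw [div_le_one (by positivity)]
    refine le_trans ?_ hM4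
    norm_num
  intro v X hXv hP4 hn0
  have hXn : (4 * 8 ^ 17 : ℝ) ≤ (X.card : ℝ) := by exact_mod_cast hn0
  have hsum : ∑ i ∈ X, (1 : ℝ) = (X.card : ℝ) := by simp
  have h8 : (1 / (2 * (((3 : ℕ) : ℝ) + 1))) = (1 / 8 : ℝ) := by norm_num
  obtain ⟨g, c, hg, hreg⟩ := A2 (d := 3) (by norm_num) X (fun x => x) (fun _ => (1 : ℝ))
    (fun _ _ => zero_le_one) (by rw [hsum]; linarith [show (0 : ℝ) < 4 * 8 ^ 17 by norm_num])
    (by
      intro g e hg
      rw [mass_eq_cnt_aux, hsum, h8]
      have h4 : (cnt X {x | g x = e} : ℝ) ≤ 4 := by exact_mod_cast hP4 g e hg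
      refine h4.trans ?_
      have : (1 / 8 : ℝ) ^ (2 ^ (3 + 1) + 1) * (4 * 8 ^ 17) = 4 := by norm_num
      calc (4 : ℝ) = (1 / 8 : ℝ) ^ (2 ^ (3 + 1) + 1) * (4 * 8 ^ 17) := this.symm
        _ ≤ (1 / 8 : ℝ) ^ (2 ^ (3 + 1) + 1) * X.card := by gcongr)
  have hcount : ∀ j, (1 / 8 : ℝ) ^ 16 * X.card ≤ (cnt X (Reg g c j) : ℝ) := by
    intro j
    have h := hreg j
    rw [mass_eq_cnt_aux, hsum, h8] at h
    exact h
  -- the construction for one index
  have hone : ∀ j : Fin 4, ∃ D : Fin 4 → R3, hull D ⊆ hull v ∧ hull D ⊆ Reg g c j ∧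
      (1 / 8 : ℝ) ^ 16 / (M : ℝ) ^ 4 * X.card ≤ (cnt X (hull D) : ℝ) := by
    intro j
    set Y : Finset R3 := X.filter (fun x => x ∈ Reg g c j) with hY
    have hYcard : cnt X (Reg g c j) = Y.card := by
      rw [hY]
      unfold cnt
      congr
    obtain ⟨δ, hδ, hmar⟩ := margin_aux g c j Y (fun x hx => (Finset.mem_filter.1 hx).2)
    set S : Finset R3 := Finset.univ.image v with hS
    have hScard : S.card ≤ 4 := by
      refine Finset.card_image_le.trans ?_
      simp
    have hScoe : (S : Set R3) = Set.range v := by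
      rw [hS, Finset.coe_image, Finset.coe_univ, Set.image_univ]
    set L : List ((R3 →ₗ[ℝ] ℝ) × ℝ) := (Finset.univ : Finset (Finset (Fin 4))).toList.map
      (fun J => if j ∈ J then (g J, c J + δ) else (-(g J), -c J + δ)) with hL
    have hLlen : L.length = K0 := by
      rw [hL, List.length_map, Finset.length_toList]
    obtain ⟨S', hS'card, hS'⟩ := hN L S
    rw [hLlen] at hS'card
    have hmemL : ∀ x : R3, (∀ q ∈ L, q.2 ≤ q.1 x) ↔ ∀ J : Finset (Fin 4),
        (j ∈ J → c J + δ ≤ g J x) ∧ (j ∉ J → -c J + δ ≤ -(g J x)) := by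
      intro x
      constructor
      · intro h J
        have h1 := h (if j ∈ J then (g J, c J + δ) else (-(g J), -c J + δ)) (by
          rw [hL]
          exact List.mem_map.2 ⟨J, Finset.mem_toList.2 (Finset.mem_univ J), rfl⟩)
        constructor
        · intro hj
          rw [if_pos hj] at h1
          exact h1
        · intro hj
          rw [if_neg hj] at h1
          exact h1
      · intro h q hq
        rw [hL] at hq
        obtain ⟨J, _, rfl⟩ := List.mem_map.1 hq
        by_cases hj : j ∈ J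
        · rw [if_pos hj]
          exact (h J).1 hj
        · rw [if_neg hj]
          exact (h J).2 hj
    have hYS' : ∀ x ∈ Y, x ∈ convexHull ℝ (S' : Set R3) := by
      intro x hx
      rw [hS']
      refine ⟨?_, ?_⟩
      · rw [hScoe]
        exact hXv x (Finset.mem_filter.1 hx).1
      · exact (hmemL x).2 (hmar x hx)
    have hYne : Y.Nonempty := by
      rw [← Finset.card_pos]
      have h1 := hcount j
      rw [hYcard] at h1
      have h2 : (0 : ℝ) < (1 / 8 : ℝ) ^ 16 * X.card := by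
        have : (0 : ℝ) < X.card := lt_of_lt_of_le (by norm_num) hXn
        positivity
      have h3 : (0 : ℝ) < (Y.card : ℝ) := lt_of_lt_of_le h2 h1
      exact_mod_cast h3
    obtain ⟨D, hD1, hD2⟩ := caraPigeon S' Y hYne hYS'
    have hDS' : hull D ⊆ convexHull ℝ (S' : Set R3) := by
      refine convexHull_mono ?_
      rintro _ ⟨i, rfl⟩
      exact hD1 i
    refine ⟨D, ?_, ?_, ?_⟩
    · intro x hx
      have h1 := hDS' hx
      rw [hS', hScoe] at h1
      exact h1.1
    · intro x hx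
      have h1 := hDS' hx
      rw [hS'] at h1
      have h2 := (hmemL x).1 h1.2
      intro J
      constructor
      · intro hj
        linarith [(h2 J).1 hj]
      · intro hj
        linarith [(h2 J).2 hj]
    · have h1 := hcount j
      rw [hYcard] at h1
      have h2 : (Y.card : ℝ) ≤ (S'.card : ℝ) ^ 4 * (cnt Y (hull D) : ℝ) := by exact_mod_cast hD2
      have h3 : (cnt Y (hull D) : ℝ) ≤ (cnt X (hull D) : ℝ) := by
        have : cnt Y (hull D) ≤ cnt X (hull D) := by
          unfold cnt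
          apply Finset.card_le_card
          apply Finset.filter_subset_filter
          exact Finset.filter_subset _ _
        exact_mod_cast this
      have h4 : (S'.card : ℝ) ≤ (M : ℝ) := by
        have : S'.card ≤ M := hS'card.trans (hNM _ hScard)
        exact_mod_cast this
      have h5 : (S'.card : ℝ) ^ 4 ≤ (M : ℝ) ^ 4 := by gcongr
      have hc0 : (0 : ℝ) ≤ (cnt Y (hull D) : ℝ) := Nat.cast_nonneg _
      have h6 : (1 / 8 : ℝ) ^ 16 * X.card ≤ (M : ℝ) ^ 4 * (cnt X (hull D) : ℝ) :=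
        calc (1 / 8 : ℝ) ^ 16 * X.card ≤ Y.card := h1
          _ ≤ (S'.card : ℝ) ^ 4 * (cnt Y (hull D) : ℝ) := h2
          _ ≤ (M : ℝ) ^ 4 * (cnt Y (hull D) : ℝ) := mul_le_mul_of_nonneg_right h5 hc0
          _ ≤ (M : ℝ) ^ 4 * (cnt X (hull D) : ℝ) := by gcongr
      have hM40 : (0 : ℝ) < (M : ℝ) ^ 4 := lt_of_lt_of_le one_pos hM4
      rw [div_mul_eq_mul_div, div_le_iff₀ hM40]
      linarith
  choose D hDv hDR hDc using hone
  refine ⟨D, ⟨hDv, ?_, ?_⟩, hDc⟩
  · intro i j hij
    exact (Reg_disjoint g c i j hij).mono (hDR i) (hDR j)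
  · intro h e hh
    obtain ⟨j, hj⟩ := A3 g c h e hh
    have hss : StrictSign h e (hull (D j)) := by
      rcases hj with hj | hj
      · exact Or.inl fun x hx => hj x (hDR j hx)
      · exact Or.inr fun x hx => hj x (hDR j hx)
    have hsub : {k : Fin 4 | ¬ StrictSign h e (hull (D k))} ⊆ ((Finset.univ.erase j : Finset (Fin 4)) : Set (Fin 4)) := by
      intro k hk
      simp only [Finset.coe_erase, Finset.coe_univ, Set.mem_diff, Set.mem_univ, Set.mem_singleton_iff,
        true_and]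
      intro hkj
      subst hkj
      exact hk hss
    calc {k : Fin 4 | ¬ StrictSign h e (hull (D k))}.ncard
        ≤ ((Finset.univ.erase j : Finset (Fin 4)) : Set (Fin 4)).ncard :=
          Set.ncard_le_ncard hsub (Finset.finite_toSet _)
      _ = (Finset.univ.erase j : Finset (Fin 4)).card := Set.ncard_coe_finset _
      _ ≤ 3 := by simp [Finset.card_erase_of_mem]

end KnotA
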