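import Pool.Agent.Helper548.KnotA.Defs

/-! Part A of MP_188a32_co: combinatorics of the tree, Plücker coordinates, lines. -/

set_option autoImplicit false
set_option linter.unusedVariables false

namespace KnotA

/-- nodes of the tree at distance `< D` below `u` -/
def nodes {K : ℕ} : ℕ → List (Fin K) → Finset (List (Fin K))
  | 0, _ => ∅
  | D + 1, u => insert u (Finset.univ.biUnion fun i : Fin K => nodes D (u ++ [i]))

/-- the pairs of children of `u` all of whose point pairs lie in `S` -/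
def Gset {K : ℕ} (Δ : List (Fin K) → (Fin 4 → R3)) (S : Set R6) (u : List (Fin K)) :
    Set (Fin K × Fin K) :=
  {q | q.1 < q.2 ∧ ∀ x ∈ hull (Δ (u ++ [q.1])), ∀ y ∈ hull (Δ (u ++ [q.2])), Pl x y ∈ S}

/-- the pairs of children of `u` whose representatives lie in `S` -/
def Rset {K : ℕ} (rep : List (Fin K) → R3) (S : Set R6) (u : List (Fin K)) :
    Set (Fin K × Fin K) :=
  {q | q.1 < q.2 ∧ Pl (rep (u ++ [q.1])) (rep (u ++ [q.2])) ∈ S}

section

theorem Pl_aff_expand (g : (Fin 6 → ℝ) →ₗ[ℝ] ℝ) (v : Fin 6 → ℝ) :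
    g v = ∑ i, v i * g (Pi.single i 1) := by
  conv_lhs => rw [LinearMap.pi_apply_eq_sum_univ g v]
  refine Finset.sum_congr rfl fun i _ => ?_
  rw [smul_eq_mul]
  congr 2
  funext j
  simp [Pi.single_apply, eq_comm]

theorem Pl_aff_val (g : (Fin 6 → ℝ) →ₗ[ℝ] ℝ) (x y : R3) :
    g (Pl x y) = (y 0 - x 0) * g (Pi.single 0 1) + (y 1 - x 1) * g (Pi.single 1 1)
      + (y 2 - x 2) * g (Pi.single 2 1) + (x 1 * y 2 - x 2 * y 1) * g (Pi.single 3 1)
      + (x 2 * y 0 - x 0 * y 2) * g (Pi.single 4 1) + (x 0 * y 1 - x 1 * y 0) * g (Pi.single 5 1) := by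
  rw [Pl_aff_expand, Fin.sum_univ_six]
  rfl

/-- `g ∘ Pl - c` is affine in each variable and not identically zero -/
theorem Pl_aff (g : (Fin 6 → ℝ) →ₗ[ℝ] ℝ) (c : ℝ) :
    (∀ y, IsAff (fun x => g (Pl x y) - c)) ∧ (∀ x, IsAff (fun y => g (Pl x y) - c)) ∧
    (g ≠ 0 → ∃ x y, g (Pl x y) - c ≠ 0) := by
  set G0 := g (Pi.single 0 1) with hG0
  set G1 := g (Pi.single 1 1) with hG1
  set G2 := g (Pi.single 2 1) with hG2
  set G3 := g (Pi.single 3 1) with hG3
  set G4 := g (Pi.single 4 1) with hG4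
  set G5 := g (Pi.single 5 1) with hG5
  refine ⟨fun y => ?_, fun x => ?_, fun hg => ?_⟩
  · refine ⟨(-G0 - y 2 * G4 + y 1 * G5) • (LinearMap.proj 0 : R3 →ₗ[ℝ] ℝ)
      + (-G1 + y 2 * G3 - y 0 * G5) • (LinearMap.proj 1 : R3 →ₗ[ℝ] ℝ)
      + (-G2 - y 1 * G3 + y 0 * G4) • (LinearMap.proj 2 : R3 →ₗ[ℝ] ℝ),
      y 0 * G0 + y 1 * G1 + y 2 * G2 - c, fun x => ?_⟩
    beta_reduce
    rw [Pl_aff_val]
    simp only [LinearMap.add_apply, LinearMap.smul_apply, LinearMap.proj_apply, smul_eq_mul]
    ring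
  · refine ⟨(G0 + x 2 * G4 - x 1 * G5) • (LinearMap.proj 0 : R3 →ₗ[ℝ] ℝ)
      + (G1 - x 2 * G3 + x 0 * G5) • (LinearMap.proj 1 : R3 →ₗ[ℝ] ℝ)
      + (G2 + x 1 * G3 - x 0 * G4) • (LinearMap.proj 2 : R3 →ₗ[ℝ] ℝ),
      -(x 0 * G0 + x 1 * G1 + x 2 * G2) - c, fun y => ?_⟩
    beta_reduce
    rw [Pl_aff_val]
    simp only [LinearMap.add_apply, LinearMap.smul_apply, LinearMap.proj_apply, smul_eq_mul]
    ring
  · by_contra hcon
    push Not at hcon
    apply hg
    have h0 := hcon ![0, 0, 0] ![0, 0, 0]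
    have h1 := hcon ![0, 0, 0] ![1, 0, 0]
    have h2 := hcon ![0, 0, 0] ![0, 1, 0]
    have h3 := hcon ![0, 0, 0] ![0, 0, 1]
    have h4 := hcon ![0, 1, 0] ![0, 0, 1]
    have h5 := hcon ![0, 0, 1] ![1, 0, 0]
    have h6 := hcon ![1, 0, 0] ![0, 1, 0]
    rw [Pl_aff_val] at h0 h1 h2 h3 h4 h5 h6
    simp at h0 h1 h2 h3 h4 h5 h6
    rw [← hG0, ← hG1, ← hG2, ← hG3, ← hG4, ← hG5] at *
    have k0 : G0 = 0 := by linarith
    have k1 : G1 = 0 := by linarith
    have k2 : G2 = 0 := by linarith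
    have k3 : G3 = 0 := by linarith
    have k4 : G4 = 0 := by linarith
    have k5 : G5 = 0 := by linarith
    ext v
    simp only [LinearMap.comp_apply, LinearMap.zero_apply]
    fin_cases v
    · exact hG0.symm.trans k0
    · exact hG1.symm.trans k1
    · exact hG2.symm.trans k2
    · exact hG3.symm.trans k3
    · exact hG4.symm.trans k4
    · exact hG5.symm.trans k5

end

section

theorem nodes_sum_prefix {K : ℕ} (D : ℕ) : ∀ (u v : List (Fin K)), v ∈ nodes D u → u <+: v := by
  induction D with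
  | zero => intro u v hv; simp [nodes] at hv
  | succ D ih =>
    intro u v hv
    rw [nodes, Finset.mem_insert] at hv
    rcases hv with rfl | hv
    · exact List.prefix_rfl
    · rw [Finset.mem_biUnion] at hv
      obtain ⟨i, _, hi⟩ := hv
      exact (List.prefix_append u [i]).trans (ih _ _ hi)

theorem nodes_sum_len {K : ℕ} (D : ℕ) : ∀ (u v : List (Fin K)), v ∈ nodes D u →
    u.length ≤ v.length ∧ v.length < u.length + D := by
  induction D with
  | zero => intro u v hv; simp [nodes] at hv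
  | succ D ih =>
    intro u v hv
    rw [nodes, Finset.mem_insert] at hv
    rcases hv with rfl | hv
    · exact ⟨le_rfl, by omega⟩
    · rw [Finset.mem_biUnion] at hv
      obtain ⟨i, _, hi⟩ := hv
      have := ih _ _ hi
      rw [List.length_append, List.length_singleton] at this
      omega

/-- sums over the nodes -/
theorem nodes_sum {K : ℕ} (D : ℕ) (φ : List (Fin K) → ℝ) (u : List (Fin K)) :
    ∑ v ∈ nodes D u, (1 / (K : ℝ)) ^ (v.length - u.length) * φ v = tot D φ u ∧
    ∀ v ∈ nodes D u, u.length ≤ v.length ∧ v.length < u.length + D := by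
  refine ⟨?_, fun v hv => nodes_sum_len D u v hv⟩
  induction D generalizing u with
  | zero => simp [nodes, tot]
  | succ D ih =>
    rw [nodes, Finset.sum_insert, Finset.sum_biUnion, tot]
    · rw [Nat.sub_self, pow_zero, one_mul, Finset.mul_sum]
      congr 1
      refine Finset.sum_congr rfl fun i _ => ?_
      rw [← ih, Finset.mul_sum]
      refine Finset.sum_congr rfl fun v hv => ?_
      have h := (nodes_sum_len D _ v hv).1
      rw [List.length_append, List.length_singleton] at h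
      have e : v.length - u.length = (v.length - (u ++ [i]).length) + 1 := by
        rw [List.length_append, List.length_singleton]; omega
      rw [e, pow_succ]
      ring
    · intro i _ j _ hij
      rw [Function.onFun, Finset.disjoint_left]
      intro v hv hv'
      have h1 := nodes_sum_prefix D _ v hv
      have h2 := nodes_sum_prefix D _ v hv'
      have h3 := List.prefix_of_prefix_length_le h1 h2 (by simp)
      have h4 := h3.eq_of_length (by simp)
      have h5 := List.append_cancel_left h4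
      exact hij (by simpa using h5)
    · intro hu
      rw [Finset.mem_biUnion] at hu
      obtain ⟨i, _, hi⟩ := hu
      have := (nodes_sum_len D _ u hi).1
      rw [List.length_append, List.length_singleton] at this
      omega

end

section

/-- elementary properties of `tot` -/
theorem tot_basic {K : ℕ} (hK : 1 ≤ K) (D : ℕ) (u : List (Fin K)) :
    (∀ φ ψ : List (Fin K) → ℝ, (∀ v, v.length < u.length + D → φ v ≤ ψ v) →
      tot D φ u ≤ tot D ψ u) ∧
    (∀ φ ψ : List (Fin K) → ℝ, tot D (fun v => φ v + ψ v) u = tot D φ u + tot D ψ u) ∧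
    (∀ c : ℝ, tot D (fun _ => c) u = c * D) := by
  induction D generalizing u with
  | zero => simp [tot]
  | succ D ih =>
    have hK0 : (0:ℝ) < K := by exact_mod_cast hK
    refine ⟨fun φ ψ h => ?_, fun φ ψ => ?_, fun c => ?_⟩
    · rw [tot, tot]
      have h1 : φ u ≤ ψ u := h u (by omega)
      have h2 : ∑ i : Fin K, tot D φ (u ++ [i]) ≤ ∑ i : Fin K, tot D ψ (u ++ [i]) := by
        refine Finset.sum_le_sum fun i _ => (ih (u ++ [i])).1 φ ψ fun v hv => h v ?_
        rw [List.length_append, List.length_singleton] at hv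
        omega
      have h3 : (1 / (K:ℝ)) * ∑ i : Fin K, tot D φ (u ++ [i]) ≤
          (1 / (K:ℝ)) * ∑ i : Fin K, tot D ψ (u ++ [i]) :=
        mul_le_mul_of_nonneg_left h2 (by positivity)
      linarith
    · rw [tot, tot, tot]
      have h2 : ∑ i : Fin K, tot D (fun v => φ v + ψ v) (u ++ [i]) =
          ∑ i : Fin K, tot D φ (u ++ [i]) + ∑ i : Fin K, tot D ψ (u ++ [i]) := by
        rw [← Finset.sum_add_distrib]
        exact Finset.sum_congr rfl fun i _ => (ih (u ++ [i])).2.1 φ ψ
      rw [h2]; ring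
    · rw [tot]
      have h2 : ∑ i : Fin K, tot D (fun _ => c) (u ++ [i]) = K * (c * D) := by
        rw [Finset.sum_congr rfl fun i _ => (ih (u ++ [i])).2.2 c]
        simp
      rw [h2]
      push_cast
      field_simp
      ring

end

section

/-- the mass of the family of pairs of representatives as an averaged sum -/
theorem mass_tot {K : ℕ} (D : ℕ) (rep : List (Fin K) → R3) (S : Set R6) :
    mass (nodes D ([] : List (Fin K)) ×ˢ (Finset.univ.filter fun q : Fin K × Fin K => q.1 < q.2))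
      (fun z : List (Fin K) × (Fin K × Fin K) =>
        Pl (rep (z.1 ++ [z.2.1])) (rep (z.1 ++ [z.2.2])))
      (fun z => (1 / (K : ℝ)) ^ z.1.length) S =
    tot D (fun u => ((Rset rep S u).ncard : ℝ)) [] := by
  classical
  have h := (nodes_sum D (fun u => ((Rset rep S u).ncard : ℝ)) []).1
  rw [← h]
  unfold mass
  rw [Finset.sum_filter, Finset.sum_product]
  refine Finset.sum_congr rfl fun u _ => ?_
  simp only [List.length_nil, Nat.sub_zero]
  have e : (Rset rep S u).ncard =
      ((Finset.univ.filter fun q : Fin K × Fin K => q.1 < q.2).filter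
        (fun q => Pl (rep (u ++ [q.1])) (rep (u ++ [q.2])) ∈ S)).card := by
    rw [← Set.ncard_coe_finset]
    congr 1
    ext q
    simp [Rset]
  rw [e, ← Finset.sum_filter, Finset.sum_const, nsmul_eq_mul, mul_comm]

end

section

/-- number of increasing pairs -/
theorem pairs_card (K : ℕ) (D : ℕ) :
    ((Finset.univ.filter fun q : Fin K × Fin K => q.1 < q.2).card : ℝ) = K * (K - 1) / 2 ∧
    (1 ≤ K → ∑ z ∈ nodes D ([] : List (Fin K)) ×ˢ
      (Finset.univ.filter fun q : Fin K × Fin K => q.1 < q.2), (1 / (K : ℝ)) ^ z.1.length =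
      K * (K - 1) / 2 * D) := by
  have h1 : ((Finset.univ.filter fun q : Fin K × Fin K => q.1 < q.2).card : ℝ)
      = K * (K - 1) / 2 := by
    have hA : (Finset.univ.filter fun q : Fin K × Fin K => q.1 < q.2).card
        = (Finset.univ.filter fun q : Fin K × Fin K => q.2 < q.1).card := by
      apply Finset.card_bij (fun q _ => (q.2, q.1))
      · intro q hq
        simp only [Finset.mem_filter, Finset.mem_univ, true_and] at hq ⊢
        exact hq
      · intro a _ b _ hab
        simp only [Prod.mk.injEq] at hab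
        exact Prod.ext hab.2 hab.1
      · intro b hb
        refine ⟨(b.2, b.1), ?_, rfl⟩
        simp only [Finset.mem_filter, Finset.mem_univ, true_and] at hb ⊢
        exact hb
    have hC : (Finset.univ.filter fun q : Fin K × Fin K => q.1 = q.2).card = K := by
      have : (Finset.univ.filter fun q : Fin K × Fin K => q.1 = q.2)
          = Finset.univ.image (fun i : Fin K => (i, i)) := by
        ext q
        simp only [Finset.mem_filter, Finset.mem_univ, true_and, Finset.mem_image]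
        constructor
        · intro h
          exact ⟨q.1, Prod.ext rfl h⟩
        · rintro ⟨i, rfl⟩
          rfl
      rw [this, Finset.card_image_of_injective _ (fun a b hab => (Prod.mk.injEq _ _ _ _ ▸ hab).1)]
      simp
    have hT : (Finset.univ.filter fun q : Fin K × Fin K => q.1 < q.2).card
        + (Finset.univ.filter fun q : Fin K × Fin K => ¬ q.1 < q.2).card = K * K := by
      rw [Finset.card_filter_add_card_filter_not]
      simp
    have hN : (Finset.univ.filter fun q : Fin K × Fin K => ¬ q.1 < q.2).card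
        = (Finset.univ.filter fun q : Fin K × Fin K => q.2 < q.1).card
          + (Finset.univ.filter fun q : Fin K × Fin K => q.1 = q.2).card := by
      rw [← Finset.card_union_of_disjoint]
      · congr 1
        ext q
        simp only [Finset.mem_filter, Finset.mem_univ, true_and, Finset.mem_union, not_lt]
        constructor
        · intro h
          rcases h.lt_or_eq with h | h
          · exact Or.inl h
          · exact Or.inr h.symm
        · rintro (h | h)
          · exact h.le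
          · exact h.symm.le
      · rw [Finset.disjoint_left]
        intro q h1 h2
        simp only [Finset.mem_filter, Finset.mem_univ, true_and] at h1 h2
        exact absurd h2 (ne_of_gt h1)
    have h2 : (2 : ℝ) * ((Finset.univ.filter fun q : Fin K × Fin K => q.1 < q.2).card : ℝ) + K
        = K * K := by
      have : 2 * (Finset.univ.filter fun q : Fin K × Fin K => q.1 < q.2).card + K = K * K := by
        omega
      exact_mod_cast this
    linarith
  refine ⟨h1, fun hK => ?_⟩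
  rw [Finset.sum_product]
  have h2 := (nodes_sum D (fun _ : List (Fin K) => (K : ℝ) * (K - 1) / 2) []).1
  rw [(tot_basic hK D []).2.2] at h2
  rw [← h2]
  apply Finset.sum_congr rfl
  intro v _
  show ∑ y ∈ (Finset.univ.filter fun q : Fin K × Fin K => q.1 < q.2), (1 / (K : ℝ)) ^ v.length = _
  rw [Finset.sum_const, nsmul_eq_mul, h1]
  simp only [List.length_nil, Nat.sub_zero]
  ring

end

section

theorem consts_aux (x : ℝ) (hx : x = 1 / (2 * ((6 : ℝ) + 1))) (N : ℕ) : ∃ t : ℕ, 1 ≤ t ∧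
    7 * (3 : ℝ) ^ t * 4 ^ t ≤ x ^ (N + 1) * ((4 : ℝ) ^ t * ((4 : ℝ) ^ t - 1) / 2) ∧
    0 < x ^ N * ((4 : ℝ) ^ t * ((4 : ℝ) ^ t - 1) / 2) -
      128 * (7 * (3 : ℝ) ^ t * 4 ^ t) := by
  have hx14 : x = 1 / 14 := by rw [hx]; norm_num
  have hκ : 0 < x ^ N := by rw [hx14]; positivity
  rw [pow_succ]
  obtain ⟨κ, hκd⟩ : ∃ κ : ℝ, κ = x ^ N := ⟨_, rfl⟩
  rw [← hκd] at hκ ⊢
  obtain ⟨n, hn⟩ := exists_pow_lt_of_lt_one (show (0:ℝ) < κ / 3584 by positivity)
    (show (3:ℝ) / 4 < 1 by norm_num)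
  obtain ⟨q, hq⟩ : ∃ q : ℝ, q = (3 / 4 : ℝ) ^ (n + 1) := ⟨_, rfl⟩
  have hq0 : 0 < q := by rw [hq]; positivity
  have hqlt : q < κ / 3584 := by
    rw [hq, pow_succ]
    have : 0 < (3 / 4 : ℝ) ^ n := by positivity
    linarith
  obtain ⟨A, hA⟩ : ∃ A : ℝ, A = (4 : ℝ) ^ (n + 1) := ⟨_, rfl⟩
  have hA2 : 2 ≤ A := by
    rw [hA, pow_succ]
    have : (1:ℝ) ≤ 4 ^ n := one_le_pow₀ (by norm_num)
    linarith
  have h3 : (3 : ℝ) ^ (n + 1) = q * A := by
    rw [hq, hA, ← mul_pow]
    norm_num
  refine ⟨n + 1, by omega, ?_, ?_⟩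
  · rw [h3, ← hA, hx14]
    have h4 : A * A / 4 ≤ A * (A - 1) / 2 := by nlinarith
    have h5 : 7 * (q * A) * A = (7 * q) * (A * A) := by ring
    rw [h5]
    have hAA : 0 < A * A := by positivity
    calc 7 * q * (A * A) ≤ (κ / 56) * (A * A) := by
          apply mul_le_mul_of_nonneg_right _ hAA.le
          linarith
      _ = κ * (1 / 14) * (A * A / 4) := by ring
      _ ≤ κ * (1 / 14) * (A * (A - 1) / 2) := by
          apply mul_le_mul_of_nonneg_left h4
          positivity
  · rw [h3, ← hA]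
    have h4 : A * A / 4 ≤ A * (A - 1) / 2 := by nlinarith
    have hAA : 0 < A * A := by positivity
    have h6 : κ * (A * A / 4) ≤ κ * (A * (A - 1) / 2) := mul_le_mul_of_nonneg_left h4 hκ.le
    have h7 : 128 * (7 * (q * A) * A) < κ * (A * A / 4) := by
      have h8 : 128 * (7 * (q * A) * A) = (896 * q) * (A * A) := by ring
      have h9 : κ * (A * A / 4) = (κ / 4) * (A * A) := by ring
      rw [h8, h9]
      apply mul_lt_mul_of_pos_right _ hAA
      linarith
    linarith

/-- the constants -/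
theorem consts : ∃ t : ℕ, 1 ≤ t ∧
    7 * (3 : ℝ) ^ t * 4 ^ t ≤
      (1 / (2 * ((6 : ℝ) + 1))) ^ (2 ^ (6 + 1) + 1) * ((4 : ℝ) ^ t * ((4 : ℝ) ^ t - 1) / 2) ∧
    0 < (1 / (2 * ((6 : ℝ) + 1))) ^ (2 ^ (6 + 1)) * ((4 : ℝ) ^ t * ((4 : ℝ) ^ t - 1) / 2) -
      128 * (7 * (3 : ℝ) ^ t * 4 ^ t) := by
  exact consts_aux _ rfl _

end

section

/-- one step of the potential argument -/
theorem A8step {K : ℕ} (hK : 1 ≤ K) (H : Set (Fin K × Fin K)) (h : Fin K → ℕ) (M : ℕ)
    (hM : ∀ i, h i ≤ M) (hno : ∀ i j, (i, j) ∈ H → ¬ (h i = M ∧ h j = M)) :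
    (H.ncard : ℝ) + (1 / (K : ℝ)) * ∑ i, 2 * (K : ℝ) ^ 2 * (h i : ℝ) ≤ 2 * (K : ℝ) ^ 2 * M := by
  classical
  set T : Finset (Fin K) := Finset.univ.filter fun i => h i < M with hT
  have hsub : H ⊆ ((T ×ˢ Finset.univ ∪ Finset.univ ×ˢ T : Finset (Fin K × Fin K)) :
      Set (Fin K × Fin K)) := by
    rintro ⟨i, j⟩ hij
    have h1 := hno i j hij
    have h2 := hM i
    have h3 := hM j
    simp only [Finset.coe_union, Finset.coe_product, Finset.coe_univ, Set.mem_union,
      Set.mem_prod, Set.mem_univ, and_true, true_and, Finset.mem_coe, hT, Finset.mem_filter,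
      Finset.mem_univ]
    by_contra hc
    push Not at hc
    exact h1 ⟨le_antisymm h2 hc.1, le_antisymm h3 hc.2⟩
  have hH : H.ncard ≤ 2 * K * T.card := by
    have h1 := Set.ncard_le_ncard hsub (Finset.finite_toSet _)
    rw [Set.ncard_coe_finset] at h1
    have h2 := Finset.card_union_le (T ×ˢ (Finset.univ : Finset (Fin K)))
      ((Finset.univ : Finset (Fin K)) ×ˢ T)
    rw [Finset.card_product, Finset.card_product, Finset.card_univ, Fintype.card_fin] at h2
    calc H.ncard ≤ _ := h1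
      _ ≤ _ := h2
      _ = 2 * K * T.card := by ring
  have hS : ∑ i, h i + T.card ≤ K * M := by
    have h1 : T.card = ∑ i, if h i < M then 1 else 0 := by
      rw [hT, Finset.card_filter]
    rw [h1, ← Finset.sum_add_distrib]
    have h2 : ∑ i : Fin K, (h i + if h i < M then 1 else 0) ≤ ∑ _i : Fin K, M := by
      refine Finset.sum_le_sum fun i _ => ?_
      have := hM i
      split_ifs <;> omega
    rwa [Finset.sum_const, Finset.card_univ, Fintype.card_fin, smul_eq_mul] at h2
  have hKpos : (0 : ℝ) < K := by exact_mod_cast hK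
  have e1 : (1 / (K : ℝ)) * ∑ i, 2 * (K : ℝ) ^ 2 * (h i : ℝ) = 2 * K * ∑ i, (h i : ℝ) := by
    rw [← Finset.mul_sum]
    field_simp
  rw [e1]
  have hH' : (H.ncard : ℝ) ≤ 2 * K * T.card := by exact_mod_cast hH
  have hS' : (∑ i, (h i : ℝ)) + T.card ≤ K * M := by exact_mod_cast hS
  nlinarith [mul_le_mul_of_nonneg_left hS' (by positivity : (0:ℝ) ≤ 2 * K)]

end

section

/-- pure combinatorics, general form -/
theorem A8gen {K : ℕ} (hK : 1 ≤ K) (G : List (Fin K) → Set (Fin K × Fin K)) (D : ℕ)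
    (u : List (Fin K)) :
    ∃ (h : ℕ) (L : List (List (Fin K))), 2 ^ h ≤ L.length ∧
      (∀ a ∈ L, ∃ v : List (Fin K), v.length = D ∧ a = u ++ v) ∧ L.Pairwise (Branch G) ∧
      tot D (fun u => ((G u).ncard : ℝ)) u ≤ 2 * (K : ℝ) ^ 2 * h := by
  induction D generalizing u with
  | zero =>
    refine ⟨0, [u], by simp, ?_, by simp, by simp [tot]⟩
    intro a ha
    rw [List.mem_singleton] at ha
    exact ⟨[], rfl, by simp [ha]⟩
  | succ D ih =>
    choose h L hpow hmem hpw htot using fun i : Fin K => ih (u ++ [i])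
    have hne : (Finset.univ : Finset (Fin K)).Nonempty := ⟨⟨0, hK⟩, Finset.mem_univ _⟩
    obtain ⟨i0, -, hi0⟩ := Finset.exists_mem_eq_sup (Finset.univ : Finset (Fin K)) hne h
    have hM : ∀ i, h i ≤ h i0 := by
      intro i
      rw [← hi0]
      exact Finset.le_sup (Finset.mem_univ i)
    have hK0 : (0 : ℝ) < K := by exact_mod_cast hK
    have hstep : tot (D + 1) (fun u => ((G u).ncard : ℝ)) u
        ≤ ((G u).ncard : ℝ) + (1 / (K : ℝ)) * ∑ i, 2 * (K : ℝ) ^ 2 * (h i : ℝ) := by
      show ((G u).ncard : ℝ) + (1 / (K : ℝ)) * ∑ i : Fin K,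
        tot D (fun u => ((G u).ncard : ℝ)) (u ++ [i]) ≤ _
      have h1 : ∑ i : Fin K, tot D (fun u => ((G u).ncard : ℝ)) (u ++ [i])
          ≤ ∑ i, 2 * (K : ℝ) ^ 2 * (h i : ℝ) := Finset.sum_le_sum fun i _ => htot i
      have h2 : (0 : ℝ) ≤ 1 / (K : ℝ) := by positivity
      have h3 := mul_le_mul_of_nonneg_left h1 h2
      linarith
    by_cases hex : ∃ i j, (i, j) ∈ G u ∧ h i = h i0 ∧ h j = h i0
    · obtain ⟨i, j, hij, hi, hj⟩ := hex
      refine ⟨h i0 + 1, L i ++ L j, ?_, ?_, ?_, ?_⟩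
      · rw [List.length_append, pow_succ]
        have h1 := hpow i
        have h2 := hpow j
        rw [hi] at h1
        rw [hj] at h2
        omega
      · intro a ha
        rw [List.mem_append] at ha
        rcases ha with ha | ha
        · obtain ⟨v, hv, hav⟩ := hmem i a ha
          exact ⟨i :: v, by simp [hv], by simp [hav]⟩
        · obtain ⟨v, hv, hav⟩ := hmem j a ha
          exact ⟨j :: v, by simp [hv], by simp [hav]⟩
      · rw [List.pairwise_append]
        refine ⟨hpw i, hpw j, ?_⟩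
        intro a ha b hb
        obtain ⟨v, hv, hav⟩ := hmem i a ha
        obtain ⟨v', hv', hbv⟩ := hmem j b hb
        exact ⟨u, i, j, v, v', by simp [hav], by simp [hbv], hij⟩
      · refine hstep.trans ?_
        have h1 : ((G u).ncard : ℝ) ≤ (K : ℝ) ^ 2 := by
          have h2 : (G u).ncard ≤ (Set.univ : Set (Fin K × Fin K)).ncard :=
            Set.ncard_le_ncard (Set.subset_univ _) Set.finite_univ
          have h3 : (Set.univ : Set (Fin K × Fin K)).ncard = K ^ 2 := by
            rw [Set.ncard_univ, Nat.card_prod, Nat.card_eq_fintype_card, Fintype.card_fin, sq]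
          rw [h3] at h2
          exact_mod_cast h2
        have h4 : ∑ i, 2 * (K : ℝ) ^ 2 * (h i : ℝ) ≤ ∑ _i : Fin K, 2 * (K : ℝ) ^ 2 * (h i0 : ℝ) := by
          refine Finset.sum_le_sum fun i _ => ?_
          have h5 : (h i : ℝ) ≤ h i0 := by exact_mod_cast hM i
          exact mul_le_mul_of_nonneg_left h5 (by positivity)
        rw [Finset.sum_const, Finset.card_univ, Fintype.card_fin, nsmul_eq_mul] at h4
        have h6 : (1 / (K : ℝ)) * ∑ i, 2 * (K : ℝ) ^ 2 * (h i : ℝ)
            ≤ (1 / (K : ℝ)) * ((K : ℝ) * (2 * (K : ℝ) ^ 2 * (h i0 : ℝ))) :=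
          mul_le_mul_of_nonneg_left h4 (by positivity)
        have h7 : (1 / (K : ℝ)) * ((K : ℝ) * (2 * (K : ℝ) ^ 2 * (h i0 : ℝ)))
            = 2 * (K : ℝ) ^ 2 * (h i0 : ℝ) := by
          field_simp
        have h8 : (0 : ℝ) ≤ (K : ℝ) ^ 2 := by positivity
        push_cast
        rw [h7] at h6
        linarith
    · refine ⟨h i0, L i0, hpow i0, ?_, hpw i0, ?_⟩
      · intro a ha
        obtain ⟨v, hv, hav⟩ := hmem i0 a ha
        exact ⟨i0 :: v, by simp [hv], by simp [hav]⟩
      · refine hstep.trans (A8step hK (G u) h (h i0) hM ?_)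
        intro i j hij hcon
        exact hex ⟨i, j, hij, hcon.1, hcon.2⟩

end

section

theorem A8 {K : ℕ} (hK : 1 ≤ K) (G : List (Fin K) → Set (Fin K × Fin K)) (D : ℕ) :
    ∃ L : List (List (Fin K)), L ≠ [] ∧ (∀ u ∈ L, u.length = D) ∧ L.Pairwise (Branch G) ∧
      (1 / (2 * (K : ℝ) ^ 2)) * tot D (fun u => ((G u).ncard : ℝ)) [] ≤ (Nat.log 2 L.length : ℝ) := by
  obtain ⟨h, L, h1, h2, h3, h4⟩ := A8gen hK G D []
  refine ⟨L, ?_, ?_, h3, ?_⟩
  · rintro rfl
    have : 0 < 2 ^ h := by positivity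
    simp at h1
  · intro u hu
    obtain ⟨v, hv, rfl⟩ := h2 u hu
    simpa using hv
  · have h5 : h ≤ Nat.log 2 L.length := Nat.le_log_of_pow_le one_lt_two h1
    have h6 : (h : ℝ) ≤ (Nat.log 2 L.length : ℝ) := by exact_mod_cast h5
    have hK' : (0 : ℝ) < K := by exact_mod_cast hK
    rw [one_div, inv_mul_le_iff₀ (by positivity)]
    nlinarith [mul_le_mul_of_nonneg_left h6 (by positivity : (0:ℝ) ≤ 2 * (K : ℝ)^2)]

end

section

/-- nesting of the simplices along the tree -/
theorem nest {K B D : ℕ} (Δ : List (Fin K) → (Fin 4 → R3))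
    (hΔ : ∀ u, u.length < D → IsFam B (Δ u) (fun i => Δ (u ++ [i]))) (u v : List (Fin K))
    (hl : (u ++ v).length ≤ D) : hull (Δ (u ++ v)) ⊆ hull (Δ u) := by
  induction v generalizing u with
  | nil => simp
  | cons i v ih =>
    have e : u ++ i :: v = (u ++ [i]) ++ v := by simp
    rw [e] at hl ⊢
    refine (ih (u ++ [i]) hl).trans ?_
    refine (hΔ u ?_).sub i
    simp only [List.length_append, List.length_cons, List.length_nil] at hl
    omega

end

section

/-- points from a list of leaves -/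
theorem leaves_list {K B D m : ℕ} (X : Finset R3) (Δ : List (Fin K) → (Fin 4 → R3))
    (rep : List (Fin K) → R3)
    (hΔ : ∀ u, u.length < D → IsFam B (Δ u) (fun i => Δ (u ++ [i])))
    (hr : ∀ u, u.length ≤ D → rep u ∈ X ∧ rep u ∈ hull (Δ u)) (S : Set R6)
    (L : List (List (Fin K))) (hL : ∀ u ∈ L, u.length = D) (hp : L.Pairwise (Branch (Gset Δ S)))
    (hm : m ≤ L.length) :
    ∃ a : Fin m → R3, (∀ i, a i ∈ X) ∧ Function.Injective a ∧
      ∀ i j, i < j → Pl (a i) (a j) ∈ S := by
  have key : ∀ (i j : ℕ) (hi : i < L.length) (hj : j < L.length), i < j →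
      ∃ (w : List (Fin K)) (p q : Fin K), p < q ∧ w.length < D ∧
        (∀ x ∈ hull (Δ (w ++ [p])), ∀ y ∈ hull (Δ (w ++ [q])), Pl x y ∈ S) ∧
        rep L[i] ∈ hull (Δ (w ++ [p])) ∧ rep L[j] ∈ hull (Δ (w ++ [q])) := by
    intro i j hi hj hij
    have hB := (List.pairwise_iff_getElem.mp hp) i j hi hj hij
    obtain ⟨w, p, q, a', b', ha, hb, hpq, hS⟩ := hB
    have hLi := hL L[i] (List.getElem_mem hi)
    have hLj := hL L[j] (List.getElem_mem hj)
    have ha2 : L[i] = (w ++ [p]) ++ a' := by rw [ha]; simp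
    have hb2 : L[j] = (w ++ [q]) ++ b' := by rw [hb]; simp
    have hlen : w.length < D := by
      rw [← hLi, ha]
      simp
    refine ⟨w, p, q, hpq, hlen, hS, ?_, ?_⟩
    · have h1 := (hr L[i] (le_of_eq hLi)).2
      have h2 := nest Δ hΔ (w ++ [p]) a' (by rw [← ha2]; exact le_of_eq hLi)
      rw [← ha2] at h2
      exact h2 h1
    · have h1 := (hr L[j] (le_of_eq hLj)).2
      have h2 := nest Δ hΔ (w ++ [q]) b' (by rw [← hb2]; exact le_of_eq hLj)
      rw [← hb2] at h2
      exact h2 h1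
  have hlt : ∀ i : Fin m, (i : ℕ) < L.length := fun i => lt_of_lt_of_le i.2 hm
  have hne : ∀ (i j : Fin m), i < j → rep (L[(i : ℕ)]'(hlt i)) ≠ rep (L[(j : ℕ)]'(hlt j)) := by
    intro i j hij he
    obtain ⟨w, p, q, hpq, hlen, _, h1, h2⟩ := key i j (hlt i) (hlt j) hij
    have hd := (hΔ w hlen).disj p q (ne_of_lt hpq)
    rw [he] at h1
    exact Set.disjoint_left.mp hd h1 h2
  refine ⟨fun i => rep (L[(i : ℕ)]'(hlt i)), ?_, ?_, ?_⟩
  · intro i
    exact (hr _ (le_of_eq (hL _ (List.getElem_mem _)))).1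
  · intro i j hij
    rcases lt_trichotomy i j with h | h | h
    · exact absurd hij (hne i j h)
    · exact h
    · exact absurd hij.symm (hne j i h)
  · intro i j hij
    obtain ⟨w, p, q, _, _, hS, h1, h2⟩ := key i j (hlt i) (hlt j) hij
    exact hS _ h1 _ h2

end

section

/-- choice of the depth: `c D ≥ log₂ m + 1` with `C^(D+1)` polynomial in `m` -/
theorem depth_choice (C : ℕ) (hC : 1 ≤ C) (c : ℝ) (hc : 0 < c) : ∃ C' d : ℕ, ∀ m n : ℕ, 1 ≤ m →
    C' * m ^ d ≤ n → ∃ D : ℕ, 1 ≤ D ∧ C ^ (D + 1) ≤ n ∧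
      ∀ l : ℕ, c * D ≤ (Nat.log 2 l : ℝ) → l ≠ 0 → m ≤ l := by
  obtain ⟨K, hK⟩ : ∃ K : ℕ, 1 / c ≤ (K : ℝ) := ⟨⌈1 / c⌉₊, Nat.le_ceil _⟩
  have hcK : 1 ≤ c * (K : ℝ) := by
    have := mul_le_mul_of_nonneg_left hK hc.le
    rwa [mul_one_div_cancel hc.ne'] at this
  set e : ℕ := C ^ K with he
  have he2 : C ^ K ≤ 2 ^ e := (Nat.lt_two_pow_self).le
  refine ⟨C ^ 2 * 2 ^ e, e, ?_⟩
  intro m n hm hn
  have hcl : 2 ^ Nat.clog 2 m ≤ 2 * m := by
    rcases Nat.lt_or_ge 1 m with h | h
    · have h1 := Nat.pow_pred_clog_lt_self (b := 2) (by norm_num) h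
      have h2 : 0 < Nat.clog 2 m := Nat.clog_pos (by norm_num) h
      have h3 : 2 ^ Nat.clog 2 m = 2 * 2 ^ (Nat.clog 2 m).pred := by
        rw [← pow_succ', ← Nat.succ_eq_add_one, Nat.succ_pred_eq_of_pos h2]
      rw [h3]
      omega
    · have : m = 1 := le_antisymm h hm
      subst this
      simp
  refine ⟨K * Nat.clog 2 m + 1, by omega, ?_, ?_⟩
  · refine le_trans ?_ hn
    calc C ^ (K * Nat.clog 2 m + 1 + 1) = C ^ 2 * (C ^ K) ^ Nat.clog 2 m := by
          rw [← pow_mul, ← pow_add]; congr 1; ring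
      _ ≤ C ^ 2 * (2 ^ e) ^ Nat.clog 2 m := by gcongr
      _ = C ^ 2 * (2 ^ Nat.clog 2 m) ^ e := by rw [← pow_mul, ← pow_mul, mul_comm e]
      _ ≤ C ^ 2 * (2 * m) ^ e := by gcongr
      _ = C ^ 2 * 2 ^ e * m ^ e := by rw [mul_pow, mul_assoc]
  · intro l hl hl0
    have h1 : Nat.clog 2 m ≤ Nat.log 2 l := by
      have h2 : ((Nat.clog 2 m : ℕ) : ℝ) ≤ (Nat.log 2 l : ℝ) := by
        refine le_trans ?_ hl
        push_cast
        have h3 : (0 : ℝ) ≤ (Nat.clog 2 m : ℝ) := Nat.cast_nonneg _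
        nlinarith [mul_le_mul_of_nonneg_right hcK h3]
      exact_mod_cast h2
    exact le_trans (Nat.le_pow_clog (by norm_num) m) (Nat.pow_le_of_le_log hl0 h1)

end

section

/-- a line meets at most `B` of the simplices -/
theorem line_meet {K B : ℕ} {v : Fin 4 → R3} {D : Fin K → Fin 4 → R3} (hD : IsFam B v D)
    (a a' : R3) (h : a ≠ a') :
    {j : Fin K | ((line[ℝ, a, a'] : Set R3) ∩ hull (D j)).Nonempty}.ncard ≤ B := by
  obtain ⟨g, hg0, hg⟩ : ∃ g : R3 →ₗ[ℝ] ℝ, g ≠ 0 ∧ g (a' - a) = 0 := by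
    have hne : ∃ i, (a' - a) i ≠ 0 := by
      by_contra hcon
      push Not at hcon
      apply h
      funext i
      have := hcon i
      simp only [Pi.sub_apply] at this
      linarith
    obtain ⟨i, hi⟩ := hne
    obtain ⟨j, hj⟩ : ∃ j : Fin 3, j ≠ i := by
      exact ⟨i + 1, by fin_cases i <;> decide⟩
    refine ⟨(a' - a) j • (LinearMap.proj i : R3 →ₗ[ℝ] ℝ) - (a' - a) i • (LinearMap.proj j : R3 →ₗ[ℝ] ℝ),
      ?_, ?_⟩
    · intro h0
      have h1 := LinearMap.congr_fun h0 (Pi.single j 1)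
      simp only [LinearMap.sub_apply, LinearMap.smul_apply, LinearMap.coe_proj, Function.eval,
        LinearMap.zero_apply, Pi.single_eq_same, Pi.single_eq_of_ne hj.symm, smul_eq_mul] at h1
      apply hi
      linarith
    · simp only [LinearMap.sub_apply, LinearMap.smul_apply, LinearMap.coe_proj, Function.eval,
        smul_eq_mul]
      ring
  refine le_trans (Set.ncard_le_ncard ?_ (Set.toFinite _)) (hD.sign g (g a) hg0)
  intro j hj
  obtain ⟨x, hx1, hx2⟩ := hj
  obtain ⟨t, ht⟩ := (mem_affineSpan_pair_iff_exists_lineMap_eq (k := ℝ)).mp hx1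
  have hgx : g x = g a := by
    rw [← ht, AffineMap.lineMap_apply]
    simp only [vsub_eq_sub, vadd_eq_add, map_add, map_smul, hg, smul_zero, zero_add]
  intro hs
  rcases hs with hs | hs
  · have := hs x hx2
    linarith
  · have := hs x hx2
    linarith

end

section

/-- separation of a line from a simplex by a plane containing the line -/
theorem sep (v : Fin 4 → R3) (a a' : R3)
    (h : ¬ ((line[ℝ, a, a'] : Set R3) ∩ hull v).Nonempty) :
    ∃ (g : R3 →ₗ[ℝ] ℝ) (c : ℝ), g a = c ∧ g a' = c ∧ ∀ b ∈ hull v, c < g b := by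
  have hcl : IsClosed (line[ℝ, a, a'] : Set R3) := AffineSubspace.closed_of_finiteDimensional (𝕜 := ℝ) _
  have hcv : Convex ℝ (line[ℝ, a, a'] : Set R3) := AffineSubspace.convex (𝕜 := ℝ) _
  have hK : IsCompact (hull v) := (Set.finite_range v).isCompact_convexHull ℝ
  have hKc : Convex ℝ (hull v) := convex_convexHull ℝ _
  have hdisj : Disjoint (line[ℝ, a, a'] : Set R3) (hull v) := by
    rw [Set.disjoint_iff_inter_eq_empty]
    exact Set.not_nonempty_iff_eq_empty.mp h
  obtain ⟨f, u, w, h1, h2, h3⟩ := geometric_hahn_banach_closed_compact hcv hcl hKc hK hdisj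
  have hf : f (a' - a) = 0 := by
    by_contra hne
    have hmem := AffineMap.lineMap_mem_affineSpan_pair ((u - f a) / f (a' - a)) a a'
    have h4 := h1 _ hmem
    rw [AffineMap.lineMap_apply, vsub_eq_sub, vadd_eq_add, map_add, map_smul, smul_eq_mul,
      div_mul_cancel₀ _ hne] at h4
    linarith
  have hfa : f a < u := by
    have hmem := AffineMap.lineMap_mem_affineSpan_pair (0 : ℝ) a a'
    rw [AffineMap.lineMap_apply_zero] at hmem
    exact h1 _ hmem
  refine ⟨(f : R3 →ₗ[ℝ] ℝ), f a, rfl, ?_, ?_⟩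
  · have : f a' - f a = 0 := by rw [← map_sub]; exact hf
    show f a' = f a
    linarith
  · intro b hb
    have := h3 b hb
    show f a < f b
    linarith

end

section

/-- greedy independent set -/
theorem greedy {α : Type} [DecidableEq α] (A : Finset α) (r : α → α → Prop) [DecidableRel r]
    (hs : ∀ x y, r x y → r y x) (m : ℕ) (hm : 1 ≤ m) (hA : 4 * m ≤ A.card)
    (hd : 8 * m * ∑ a ∈ A, (A.filter fun b => r a b).card ≤ A.card ^ 2) :
    ∃ A' ⊆ A, m ≤ A'.card ∧ ∀ a ∈ A', ∀ b ∈ A', a ≠ b → ¬ r a b := by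
  set n := A.card with hn
  have hn0 : 0 < n := by omega
  set deg : α → ℕ := fun a => (A.filter fun b => r a b).card with hdeg
  set A0 := A.filter (fun a => 4 * m * deg a ≤ n) with hA0
  set A1 := A.filter (fun a => ¬ 4 * m * deg a ≤ n) with hA1
  have hsum : A0.card + A1.card = n := Finset.card_filter_add_card_filter_not _
  have h1 : 2 * A1.card ≤ n := by
    have e1 : A1.card * n ≤ ∑ a ∈ A1, 4 * m * deg a := by
      rw [← smul_eq_mul]
      apply Finset.card_nsmul_le_sum
      intro a ha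
      have := (Finset.mem_filter.mp ha).2
      omega
    have e2 : ∑ a ∈ A1, 4 * m * deg a ≤ ∑ a ∈ A, 4 * m * deg a :=
      Finset.sum_le_sum_of_subset (Finset.filter_subset _ _)
    have e4 : ∑ a ∈ A, 4 * m * deg a = 4 * m * ∑ a ∈ A, deg a := by rw [Finset.mul_sum]
    rw [e4] at e2
    have e3 : 2 * A1.card * n ≤ n * n := by
      calc 2 * A1.card * n = 2 * (A1.card * n) := by ring
        _ ≤ 2 * (4 * m * ∑ a ∈ A, deg a) := Nat.mul_le_mul_left _ (e1.trans e2)
        _ = 8 * m * ∑ a ∈ A, deg a := by ring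
        _ ≤ n ^ 2 := hd
        _ = n * n := by ring
    exact Nat.le_of_mul_le_mul_right e3 hn0
  have h2 : n ≤ 2 * A0.card := by omega
  have key : ∀ k ≤ m, ∃ A' ⊆ A0, A'.card = k ∧ ∀ a ∈ A', ∀ b ∈ A', a ≠ b → ¬ r a b := by
    intro k
    induction k with
    | zero =>
      intro _
      exact ⟨∅, Finset.empty_subset _, rfl, by simp⟩
    | succ k ih =>
      intro hk
      obtain ⟨A', hA', hcard, hind⟩ := ih (by omega)
      set B := A' ∪ A'.biUnion (fun a => A.filter fun b => r a b) with hB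
      have hBc : 4 * m * B.card ≤ 2 * k * n := by
        have e1 : B.card ≤ A'.card + ∑ a ∈ A', deg a :=
          (Finset.card_union_le _ _).trans (Nat.add_le_add_left Finset.card_biUnion_le _)
        have e2 : 4 * m * ∑ a ∈ A', deg a ≤ k * n := by
          rw [Finset.mul_sum, ← hcard, ← smul_eq_mul]
          apply Finset.sum_le_card_nsmul
          intro a ha
          exact (Finset.mem_filter.mp (hA' ha)).2
        calc 4 * m * B.card ≤ 4 * m * (A'.card + ∑ a ∈ A', deg a) := Nat.mul_le_mul_left _ e1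
          _ = 4 * m * k + 4 * m * ∑ a ∈ A', deg a := by rw [hcard]; ring
          _ ≤ n * k + k * n := Nat.add_le_add (Nat.mul_le_mul_right _ hA) e2
          _ = 2 * k * n := by ring
      have hlt : B.card < A0.card := by
        have e1 : 2 * B.card < n := by
          by_contra hcon
          push Not at hcon
          have e2 : 2 * m * n ≤ 2 * k * n := by nlinarith
          have e3 : 2 * m ≤ 2 * k := Nat.le_of_mul_le_mul_right e2 hn0
          omega
        omega
      obtain ⟨x, hx, hxB⟩ := Finset.exists_mem_notMem_of_card_lt_card hlt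
      have hxA : x ∈ A := (Finset.mem_filter.mp hx).1
      have hxA' : x ∉ A' := fun h => hxB (Finset.mem_union_left _ h)
      have hxr : ∀ a ∈ A', ¬ r a x := by
        intro a ha har
        apply hxB
        apply Finset.mem_union_right
        rw [Finset.mem_biUnion]
        exact ⟨a, ha, Finset.mem_filter.mpr ⟨hxA, har⟩⟩
      refine ⟨insert x A', ?_, ?_, ?_⟩
      · intro y hy
        rcases Finset.mem_insert.mp hy with h | h
        · rw [h]; exact hx
        · exact hA' h
      · rw [Finset.card_insert_of_notMem hxA', hcard]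
      · intro a ha b hb hab
        rcases Finset.mem_insert.mp ha with h | h
        · rcases Finset.mem_insert.mp hb with h' | h'
          · exact absurd (h.trans h'.symm) hab
          · rw [h]
            intro hr
            exact hxr b h' (hs _ _ hr)
        · rcases Finset.mem_insert.mp hb with h' | h'
          · rw [h']
            exact hxr a h
          · exact hind a h b h' hab
  obtain ⟨A', hA', hcard, hind⟩ := key m le_rfl
  exact ⟨A', hA'.trans (Finset.filter_subset _ _), hcard.ge, hind⟩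

end

section

/-- choice of the depth in A10 -/
theorem depth_choice2 (c : ℝ) (n0 : ℕ) (hc : 0 < c) (hc1 : c ≤ 1) : ∃ C d : ℕ, ∀ m n : ℕ, 1 ≤ m →
    C * m ^ d ≤ n → 4 * m ≤ n ∧ ∃ t : ℕ, 8 * m * 3 ^ t ≤ 4 ^ t ∧ (n0 : ℝ) ≤ c ^ t * n ∧
      (m : ℝ) ≤ c ^ t * n := by
  obtain ⟨a, ha⟩ := exists_nat_ge ((c ^ 3)⁻¹)
  have hc3 : 0 < c ^ 3 := by positivity
  have ha2 : (c ^ 3)⁻¹ ≤ (2 : ℝ) ^ a := by
    have h1 : (a : ℝ) ≤ (2 : ℝ) ^ a := by
      have : a < 2 ^ a := Nat.lt_two_pow_self
      exact_mod_cast this.le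
    linarith
  have ha3 : 1 ≤ c ^ 3 * (2 : ℝ) ^ a := by
    rw [inv_le_iff_one_le_mul₀ hc3] at ha2
    linarith
  refine ⟨(n0 + 1) * 16 ^ a + 4, a + 1, fun m n hm hn => ?_⟩
  have hm1 : m ≤ m ^ (a + 1) := by
    calc m = m * 1 := (mul_one m).symm
      _ ≤ m * m ^ a := Nat.mul_le_mul_left _ (Nat.one_le_pow _ _ hm)
      _ = m ^ (a + 1) := by ring
  refine ⟨?_, ?_⟩
  · calc 4 * m ≤ 4 * m ^ (a + 1) := Nat.mul_le_mul_left _ hm1
      _ ≤ ((n0 + 1) * 16 ^ a + 4) * m ^ (a + 1) := Nat.mul_le_mul_right _ (by omega)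
      _ ≤ n := hn
  · have hmR : (1 : ℝ) ≤ m := by exact_mod_cast hm
    obtain ⟨l, hl1, hl2⟩ := exists_nat_pow_near (show (1 : ℝ) ≤ 8 * m by linarith)
      (show (1 : ℝ) < 2 by norm_num)
    set L := l + 1 with hL
    have hL1 : (2 : ℝ) ^ L ≤ 16 * m := by
      rw [hL, pow_succ]; linarith
    have hL2 : 8 * m ≤ 2 ^ L := by
      have : (8 * m : ℝ) ≤ 2 ^ L := hl2.le
      exact_mod_cast this
    refine ⟨3 * L, ?_, ?_⟩
    · calc 8 * m * 3 ^ (3 * L) ≤ 2 ^ L * 3 ^ (3 * L) := Nat.mul_le_mul_right _ hL2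
        _ = 54 ^ L := by
            rw [pow_mul, ← mul_pow]; norm_num
        _ ≤ 64 ^ L := Nat.pow_le_pow_left (by norm_num) _
        _ = 4 ^ (3 * L) := by rw [pow_mul]; norm_num
    · have hkey : (n0 : ℝ) + m ≤ c ^ (3 * L) * n := by
        have hnR : (((n0 : ℝ) + 1) * 16 ^ a + 4) * (m : ℝ) ^ (a + 1) ≤ n := by exact_mod_cast hn
        have h1 : ((n0 : ℝ) + m) * (16 * m) ^ a ≤ n := by
          have h2 : ((n0 : ℝ) + m) ≤ (n0 + 1) * m := by
            have : (0 : ℝ) ≤ n0 := Nat.cast_nonneg _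
            nlinarith
          calc ((n0 : ℝ) + m) * (16 * m) ^ a ≤ ((n0 + 1) * m) * (16 * m) ^ a :=
                mul_le_mul_of_nonneg_right h2 (by positivity)
            _ = ((n0 : ℝ) + 1) * 16 ^ a * (m : ℝ) ^ (a + 1) := by rw [mul_pow]; ring
            _ ≤ (((n0 : ℝ) + 1) * 16 ^ a + 4) * (m : ℝ) ^ (a + 1) := by
                apply mul_le_mul_of_nonneg_right _ (by positivity)
                linarith
            _ ≤ n := hnR
        have h3 : 1 ≤ c ^ (3 * L) * (16 * m) ^ a := by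
          calc (1 : ℝ) ≤ (c ^ 3 * (2 : ℝ) ^ a) ^ L := one_le_pow₀ ha3
            _ = c ^ (3 * L) * ((2 : ℝ) ^ L) ^ a := by
                rw [mul_pow, ← pow_mul, ← pow_mul, ← pow_mul]
                congr 2
                ring
            _ ≤ c ^ (3 * L) * (16 * m) ^ a :=
                mul_le_mul_of_nonneg_left (pow_le_pow_left₀ (by positivity) hL1 a) (by positivity)
        have h0 : (0 : ℝ) ≤ (n0 : ℝ) + m := by positivity
        calc (n0 : ℝ) + m = ((n0 : ℝ) + m) * 1 := (mul_one _).symm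
          _ ≤ ((n0 : ℝ) + m) * (c ^ (3 * L) * (16 * m) ^ a) := mul_le_mul_of_nonneg_left h3 h0
          _ = c ^ (3 * L) * (((n0 : ℝ) + m) * (16 * m) ^ a) := by ring
          _ ≤ c ^ (3 * L) * n := mul_le_mul_of_nonneg_left h1 (by positivity)
      have : (0 : ℝ) ≤ n0 := Nat.cast_nonneg _
      constructor <;> linarith

end

section

/-- the orientation is a linear function of the Plücker coordinates -/
theorem chi_pl (b b' : R3) (hb : b ≠ b') : ∃ q : (Fin 6 → ℝ) →ₗ[ℝ] ℝ, q ≠ 0 ∧
    ∀ a a' : R3, q (Pl a a') = chi a a' b b' := by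
  let co : Fin 6 → ℝ := ![b 1 * b' 2 - b 2 * b' 1, b 2 * b' 0 - b 0 * b' 2, b 0 * b' 1 - b 1 * b' 0,
    b' 0 - b 0, b' 1 - b 1, b' 2 - b 2]
  let q : (Fin 6 → ℝ) →ₗ[ℝ] ℝ :=
    { toFun := fun x => ∑ i, co i * x i
      map_add' := by
        intro x y
        simp only [Pi.add_apply, mul_add, Finset.sum_add_distrib]
      map_smul' := by
        intro r x
        simp only [Pi.smul_apply, smul_eq_mul, RingHom.id_apply, Finset.mul_sum]
        refine Finset.sum_congr rfl fun i _ => ?_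
        ring }
  have hq : ∀ x, q x = ∑ i, co i * x i := fun x => rfl
  refine ⟨q, ?_, ?_⟩
  · intro h0
    have hc : ∀ i, co i = 0 := by
      intro i
      have h1 : q (Pi.single i 1) = 0 := by rw [h0]; rfl
      rw [hq] at h1
      simpa [Pi.single_apply] using h1
    apply hb
    have h3 := hc 3
    have h4 := hc 4
    have h5 := hc 5
    simp only [co] at h3 h4 h5
    have h3' : b' 0 - b 0 = 0 := h3
    have h4' : b' 1 - b 1 = 0 := h4
    have h5' : b' 2 - b 2 = 0 := h5
    funext i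
    fin_cases i
    · show b 0 = b' 0
      linarith
    · show b 1 = b' 1
      linarith
    · show b 2 = b' 2
      linarith
  · intro a a'
    rw [hq]
    unfold chi Pl
    rw [Matrix.det_fin_three]
    simp [Fin.sum_univ_succ, co]
    ring

end

section

/-- antisymmetry and the exchange identity -/
theorem chi_id (a a' : R3) : (∀ b b', chi a a' b' b = - chi a a' b b') ∧
    ∀ (g : R3 →ₗ[ℝ] ℝ) (c : ℝ), g a = c → g a' = c → ∀ b b' b'' : R3,
      (g b' - c) * chi a a' b b'' =
        (g b - c) * chi a a' b' b'' + (g b'' - c) * chi a a' b b' := by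
  constructor
  · intro b b'
    simp only [chi, Matrix.det_fin_three, Matrix.of_apply, Matrix.cons_val', Matrix.cons_val_zero,
      Matrix.cons_val_one, Matrix.cons_val, Pi.sub_apply]
    ring
  · intro g c hga hga' b b' b''
    have hg : ∀ x : R3, g x = g (Pi.single 0 1) * x 0 + g (Pi.single 1 1) * x 1 + g (Pi.single 2 1) * x 2 := by
      intro x
      have hx : x = x 0 • (Pi.single 0 1 : R3) + x 1 • (Pi.single 1 1 : R3) + x 2 • (Pi.single 2 1 : R3) := by
        funext l
        fin_cases l <;> simp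
      conv_lhs => rw [hx]
      rw [map_add, map_add, map_smul, map_smul, map_smul, smul_eq_mul, smul_eq_mul, smul_eq_mul]
      ring
    rw [hg a] at hga
    rw [hg a'] at hga'
    rw [hg b, hg b', hg b'']
    simp only [chi, Matrix.det_fin_three, Matrix.of_apply, Matrix.cons_val', Matrix.cons_val_zero,
      Matrix.cons_val_one, Matrix.cons_val, Pi.sub_apply]
    generalize g (Pi.single 0 1) = G0 at *
    generalize g (Pi.single 1 1) = G1 at *
    generalize g (Pi.single 2 1) = G2 at *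
    generalize a 0 = a0 at *
    generalize a 1 = a1 at *
    generalize a 2 = a2 at *
    subst hga
    have h0 : G0 * (a' 0 - a0) + G1 * (a' 1 - a1) + G2 * (a' 2 - a2) = 0 := by linarith
    linear_combination (-((b 0 - a0) * ((b' 1 - a1) * (b'' 2 - a2) - (b' 2 - a2) * (b'' 1 - a1))
      - (b 1 - a1) * ((b' 0 - a0) * (b'' 2 - a2) - (b' 2 - a2) * (b'' 0 - a0))
      + (b 2 - a2) * ((b' 0 - a0) * (b'' 1 - a1) - (b' 1 - a1) * (b'' 0 - a0)))) * h0

end

section

/-- chain of length `l + 1` ending at `x` -/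
def ChainTo {α : Type} (B : Finset α) (r : α → α → Prop) (l : ℕ) (x : α) : Prop :=
  ∃ b : Fin (l + 1) → α, (∀ i, b i ∈ B) ∧ (∀ i j, i < j → r (b i) (b j)) ∧ b (Fin.last l) = x

theorem ChainTo.snoc {α : Type} {B : Finset α} {r : α → α → Prop}
    (htr : ∀ x ∈ B, ∀ y ∈ B, ∀ z ∈ B, r x y → r y z → r x z) {l : ℕ} {x y : α}
    (h : ChainTo B r l x) (hy : y ∈ B) (hxy : r x y) : ChainTo B r (l + 1) y := by
  obtain ⟨b, hb, hr, hx⟩ := h
  refine ⟨Fin.snoc (α := fun _ => α) b y, ?_, ?_, ?_⟩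
  · intro i
    refine Fin.lastCases ?_ (fun i => ?_) i
    · rw [Fin.snoc_last]; exact hy
    · rw [Fin.snoc_castSucc]; exact hb i
  · intro i j
    refine Fin.lastCases ?_ (fun j => ?_) j
    · refine Fin.lastCases ?_ (fun i => ?_) i
      · intro h; exact absurd h (lt_irrefl _)
      · intro _
        rw [Fin.snoc_last, Fin.snoc_castSucc]
        rcases (Fin.le_last i).eq_or_lt with h | h
        · rw [h, hx]; exact hxy
        · have h1 := hr i (Fin.last l) h
          rw [hx] at h1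
          have h2 : x ∈ B := hx ▸ hb _
          exact htr _ (hb i) _ h2 _ hy h1 hxy
    · refine Fin.lastCases ?_ (fun i => ?_) i
      · intro h
        exact absurd h (not_lt.2 (Fin.le_last _))
      · intro h
        rw [Fin.snoc_castSucc, Fin.snoc_castSucc]
        exact hr i j (by simpa using h)
  · rw [Fin.snoc_last]

theorem ChainTo.zero {α : Type} {B : Finset α} {r : α → α → Prop} {x : α} (hx : x ∈ B) :
    ChainTo B r 0 x := by
  refine ⟨fun _ => x, fun _ => hx, fun i j hij => ?_, rfl⟩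
  have h1 : i = j := Fin.ext (by omega)
  subst h1
  exact absurd hij (lt_irrefl _)

/-- seven strict orders: a long chain in one of them -/
theorem chains {α : Type} [DecidableEq α] (B : Finset α) (r : Fin 7 → α → α → Prop)
    (hirr : ∀ k, ∀ x ∈ B, ¬ r k x x)
    (htr : ∀ k, ∀ x ∈ B, ∀ y ∈ B, ∀ z ∈ B, r k x y → r k y z → r k x z)
    (hcomp : ∀ x ∈ B, ∀ y ∈ B, x ≠ y → ∃ k, r k x y ∨ r k y x) (m : ℕ) (hm : 1 ≤ m)
    (hB : m ^ 7 ≤ B.card) :
    ∃ (k : Fin 7) (b : Fin m → α), (∀ i, b i ∈ B) ∧ ∀ i j, i < j → r k (b i) (b j) := by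
  classical
  obtain ⟨n, rfl⟩ : ∃ n, m = n + 1 := ⟨m - 1, by omega⟩
  by_contra hcon
  have hno : ∀ k x, ¬ ChainTo B (r k) n x := by
    rintro k x ⟨b, hb, hr, -⟩
    exact hcon ⟨k, b, hb, hr⟩
  let L : Fin 7 → α → ℕ := fun k x => Nat.findGreatest (fun l => ChainTo B (r k) l x) n
  have hL : ∀ k, ∀ x ∈ B, ChainTo B (r k) (L k x) x := fun k x hx =>
    Nat.findGreatest_spec (P := fun l => ChainTo B (r k) l x) (Nat.zero_le n) (ChainTo.zero hx)
  have hLn : ∀ k, ∀ x ∈ B, L k x < n := by
    intro k x hx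
    refine lt_of_le_of_ne (Nat.findGreatest_le n) fun h => hno k x ?_
    have := hL k x hx
    rwa [h] at this
  have hstep : ∀ k, ∀ x ∈ B, ∀ y ∈ B, r k x y → L k x < L k y := by
    intro k x hx y hy hxy
    have h1 : ChainTo B (r k) (L k x + 1) y := (hL k x hx).snoc (htr k) hy hxy
    exact Nat.le_findGreatest (Nat.succ_le_of_lt (hLn k x hx)) h1
  have hinj : Set.InjOn (fun x => fun k => L k x) (B : Set α) := by
    intro x hx y hy hxy
    by_contra hne
    obtain ⟨k, hk⟩ := hcomp x hx y hy hne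
    have h1 : L k x = L k y := congrFun hxy k
    rcases hk with hk | hk
    · exact absurd h1 (hstep k x hx y hy hk).ne
    · exact absurd h1 (hstep k y hy x hx hk).ne'
  have hcard := Finset.card_le_card_of_injOn (s := B) (t := Fintype.piFinset (fun _ : Fin 7 => Finset.range n))
    (fun x => fun k => L k x) (by
      intro x hx
      rw [Finset.mem_coe, Fintype.mem_piFinset]
      intro k
      rw [Finset.mem_range]
      exact hLn k x hx) hinj
  rw [Fintype.card_piFinset] at hcard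
  simp only [Finset.card_range, Finset.prod_const, Finset.card_univ, Fintype.card_fin] at hcard
  have h1 : n ^ 7 < (n + 1) ^ 7 := Nat.pow_lt_pow_left (Nat.lt_succ_self n) (by norm_num)
  omega

end

end KnotA
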