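import Pool.Agent.Helper548.KnotA.Defs

namespace KnotA

theorem cut (S : Finset R3) (g : R3 →ₗ[ℝ] ℝ) (c : ℝ) :
    ∃ S' : Finset R3, S'.card ≤ S.card + S.card ^ 2 ∧
      convexHull ℝ (S' : Set R3) = convexHull ℝ (S : Set R3) ∩ {x | c ≤ g x} := by
  classical
  set P := S.filter (fun x => c ≤ g x) with hP
  set M := S.filter (fun x => ¬ c ≤ g x) with hM
  let z : R3 × R3 → R3 := fun q =>
    (1 / (g q.1 - g q.2)) • ((g q.1 - c) • q.2 + (c - g q.2) • q.1)
  set S' := P ∪ (P ×ˢ M).image z with hS'
  refine ⟨S', ?_, ?_⟩
  · have h1 : S'.card ≤ P.card + ((P ×ˢ M).image z).card := Finset.card_union_le P ((P ×ˢ M).image z)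
    have h2 : ((P ×ˢ M).image z).card ≤ (P ×ˢ M).card := Finset.card_image_le
    rw [Finset.card_product] at h2
    have h3 : P.card ≤ S.card := Finset.card_filter_le _ _
    have h4 : M.card ≤ S.card := Finset.card_filter_le _ _
    have : P.card * M.card ≤ S.card ^ 2 := by rw [sq]; exact Nat.mul_le_mul h3 h4
    omega
  · have hPm : ∀ s ∈ P, s ∈ S ∧ c ≤ g s := fun s hs => Finset.mem_filter.1 hs
    have hMm : ∀ t ∈ M, t ∈ S ∧ g t < c := fun t ht => by
      have := Finset.mem_filter.1 ht
      exact ⟨this.1, not_le.1 this.2⟩
    apply Set.Subset.antisymm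
    · apply convexHull_min
      · intro x hx
        rw [Finset.mem_coe, hS', Finset.mem_union] at hx
        rcases hx with hx | hx
        · exact ⟨subset_convexHull ℝ _ (hPm x hx).1, (hPm x hx).2⟩
        · rw [Finset.mem_image] at hx
          obtain ⟨⟨s, t⟩, hst, rfl⟩ := hx
          rw [Finset.mem_product] at hst
          obtain ⟨hs1, hs2⟩ := hPm s hst.1
          obtain ⟨ht1, ht2⟩ := hMm t hst.2
          have hd : 0 < g s - g t := by linarith
          constructor
          · have h1 := (convex_convexHull ℝ (S : Set R3))
              (subset_convexHull ℝ _ (show t ∈ (S : Set R3) from ht1))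
              (subset_convexHull ℝ _ (show s ∈ (S : Set R3) from hs1))
              (show 0 ≤ (g s - c) / (g s - g t) from div_nonneg (by linarith) hd.le)
              (show 0 ≤ (c - g t) / (g s - g t) from div_nonneg (by linarith) hd.le)
              (by rw [← add_div]; rw [div_eq_one_iff_eq hd.ne']; ring)
            have h2 : z (s, t) = ((g s - c) / (g s - g t)) • t + ((c - g t) / (g s - g t)) • s := by
              simp only [z, smul_add, smul_smul]
              congr 2 <;> ring
            rw [h2]
            exact h1
          · show c ≤ g (z (s, t))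
            have h3 : g (z (s, t)) = c := by
              simp only [z, map_smul, map_add, smul_eq_mul]
              field_simp
              ring
            rw [h3]
      · exact (convex_convexHull ℝ _).inter (convex_halfSpace_ge g.isLinear c)
    · rintro p ⟨hp, hpc⟩
      rw [Finset.mem_convexHull'] at hp
      obtain ⟨w, hw0, hw1, hwp⟩ := hp
      have hC : Convex ℝ (convexHull ℝ (S' : Set R3)) := convex_convexHull ℝ _
      have hPin : ∀ s ∈ P, s ∈ convexHull ℝ (S' : Set R3) := fun s hs =>
        subset_convexHull ℝ _ (by
          rw [Finset.mem_coe, hS']; exact Finset.mem_union_left _ hs)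
      have hzin : ∀ s ∈ P, ∀ t ∈ M, z (s, t) ∈ convexHull ℝ (S' : Set R3) := fun s hs t ht =>
        subset_convexHull ℝ _ (by
          rw [Finset.mem_coe, hS']
          exact Finset.mem_union_right _ (Finset.mem_image_of_mem _ (Finset.mem_product.2 ⟨hs, ht⟩)))
      have hwP : ∀ s ∈ P, 0 ≤ w s := fun s hs => hw0 s (hPm s hs).1
      have hwM : ∀ s ∈ M, 0 ≤ w s := fun s hs => hw0 s (hMm s hs).1
      have hsum : ∀ {V : Type} [AddCommMonoid V] (f : R3 → V),
          ∑ s ∈ S, f s = ∑ s ∈ P, f s + ∑ s ∈ M, f s := by
        intro V _ f
        rw [hP, hM, Finset.sum_filter_add_sum_filter_not]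
      have hA0 : ∑ s ∈ P, w s + ∑ t ∈ M, w t = 1 := by
        rw [← hsum, hw1]
      have hvec : ∑ s ∈ P, w s • s + ∑ t ∈ M, w t • t = p := by
        rw [← hsum, hwp]
      obtain ⟨a, ha⟩ : ∃ a : ℝ, a = ∑ s ∈ P, w s * (g s - c) := ⟨_, rfl⟩
      obtain ⟨m, hm⟩ : ∃ m : ℝ, m = ∑ t ∈ M, w t * (c - g t) := ⟨_, rfl⟩
      have ha0 : 0 ≤ a := by
        rw [ha]
        exact Finset.sum_nonneg (fun s hs => mul_nonneg (hwP s hs) (by linarith [(hPm s hs).2]))
      have hm0 : 0 ≤ m := by
        rw [hm]
        exact Finset.sum_nonneg (fun s hs => mul_nonneg (hwM s hs) (by linarith [(hMm s hs).2]))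
      have ham : m ≤ a := by
        have h1 : g p = ∑ s ∈ P, w s * g s + ∑ t ∈ M, w t * g t := by
          rw [← hvec, map_add, map_sum, map_sum]
          simp only [map_smul, smul_eq_mul]
        have h2 : a - m = g p - c := by
          rw [ha, hm, h1]
          have h3 : ∑ s ∈ P, w s * (g s - c) = ∑ s ∈ P, w s * g s - (∑ s ∈ P, w s) * c := by
            rw [Finset.sum_mul, ← Finset.sum_sub_distrib]
            exact Finset.sum_congr rfl (fun s _ => by ring)
          have h4 : ∑ t ∈ M, w t * (c - g t) = (∑ t ∈ M, w t) * c - ∑ t ∈ M, w t * g t := by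
            rw [Finset.sum_mul, ← Finset.sum_sub_distrib]
            exact Finset.sum_congr rfl (fun s _ => by ring)
          rw [h3, h4]
          linear_combination (-c) * hA0
        have h5 : c ≤ g p := hpc
        linarith
      rcases ha0.eq_or_lt with ha1 | ha1
      · have hm1 : m = 0 := le_antisymm (by linarith) hm0
        have hz0 : ∀ t ∈ M, w t = 0 := by
          intro t ht
          rw [hm, Finset.sum_eq_zero_iff_of_nonneg (fun s hs => mul_nonneg (hwM s hs)
            (by linarith [(hMm s hs).2]))] at hm1
          have h1 := hm1 t ht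
          rcases mul_eq_zero.1 h1 with h2 | h2
          · exact h2
          · have := (hMm t ht).2
            linarith
        have h1 : ∑ t ∈ M, w t = 0 := Finset.sum_eq_zero hz0
        have h2 : ∑ t ∈ M, w t • t = 0 := Finset.sum_eq_zero (fun t ht => by
          rw [hz0 t ht, zero_smul])
        rw [h1, add_zero] at hA0
        rw [h2, add_zero] at hvec
        rw [← hvec]
        exact hC.sum_mem hwP hA0 hPin
      · let I : Finset (R3 × Option R3) := P ×ˢ (Finset.insertNone M)
        let W : R3 × Option R3 → ℝ := fun q => match q.2 with
          | none => w q.1 * (1 - m / a)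
          | some t => w q.1 * w t * (g q.1 - g t) / a
        let Z : R3 × Option R3 → R3 := fun q => match q.2 with
          | none => q.1
          | some t => z (q.1, t)
        have hm2 : 0 ≤ 1 - m / a := by
          rw [sub_nonneg, div_le_one ha1]; exact ham
        have hkey := hC.sum_mem (t := I) (w := W) (z := Z) (by
          rintro ⟨s, o⟩ hso
          rw [Finset.mem_product] at hso
          rcases o with _ | t
          · exact mul_nonneg (hwP s hso.1) hm2
          · have ht : t ∈ M := by simpa using hso.2
            refine div_nonneg (mul_nonneg (mul_nonneg (hwP s hso.1) (hwM t ht)) ?_) ha1.le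
            linarith [(hPm s hso.1).2, (hMm t ht).2]) (by
          rw [Finset.sum_product]
          simp only [Finset.sum_insertNone, W]
          rw [Finset.sum_add_distrib, ← Finset.sum_mul]
          have h1 : ∀ s ∈ P, ∑ t ∈ M, w s * w t * (g s - g t) / a
              = (w s * (g s - c) * (∑ t ∈ M, w t) + w s * m) / a := by
            intro s _
            rw [hm, Finset.mul_sum, Finset.mul_sum, ← Finset.sum_add_distrib, Finset.sum_div]
            exact Finset.sum_congr rfl (fun t _ => by ring)
          rw [Finset.sum_congr rfl h1, ← Finset.sum_div, Finset.sum_add_distrib, ← Finset.sum_mul,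
            ← Finset.sum_mul, ← ha]
          field_simp
          linear_combination a * hA0) (by
          rintro ⟨s, o⟩ hso
          rw [Finset.mem_product] at hso
          rcases o with _ | t
          · exact hPin s hso.1
          · have ht : t ∈ M := by simpa using hso.2
            exact hzin s hso.1 t ht)
        have hval : ∑ i ∈ I, W i • Z i = p := by
          rw [Finset.sum_product]
          simp only [Finset.sum_insertNone, W, Z]
          rw [Finset.sum_add_distrib]
          have h1 : ∀ s ∈ P, ∑ t ∈ M, (w s * w t * (g s - g t) / a) • z (s, t)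
              = (w s * (g s - c) / a) • (∑ t ∈ M, w t • t) + (w s * m / a) • s := by
            intro s hs
            rw [hm, Finset.mul_sum, Finset.sum_div, Finset.sum_smul, Finset.smul_sum,
              ← Finset.sum_add_distrib]
            refine Finset.sum_congr rfl (fun t ht => ?_)
            have hd : g s - g t ≠ 0 := by
              have := (hPm s hs).2
              have := (hMm t ht).2
              intro h; linarith
            simp only [z, smul_add, smul_smul]
            congr 2
            · field_simp
            · field_simp
          rw [Finset.sum_congr rfl h1, Finset.sum_add_distrib, ← Finset.sum_smul,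
            ← Finset.sum_div, ← ha, div_self ha1.ne', one_smul, ← hvec]
          have h2 : ∑ s ∈ P, (w s * (1 - m / a)) • s + ∑ s ∈ P, (w s * m / a) • s
              = ∑ s ∈ P, w s • s := by
            rw [← Finset.sum_add_distrib]
            refine Finset.sum_congr rfl (fun s _ => ?_)
            rw [← add_smul]
            congr 1
            ring
          rw [← h2]
          abel
        rw [← hval]
        exact hkey

end KnotA
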